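import Pool.Agent.MP_71ac24_nt.H54.Freq

attribute [-instance] IdemSemiring.toCanonicallyOrderedAdd AddQuantale.instAddLeftMono
  covariant_swap_mul_of_covariant_mul NumberField.to_charZero IsOrderedMonoid.toMulLeftMono
  RKHS.instFunLike Quantale.instMulLeftMono Fintype.decidableForallFintype
  AddQuantale.instAddRightMono IdemSemiring.toMulLeftMono
  LinearOrderedCommMonoidWithZero.toPosMulStrictMono Quantale.instMulRightMono instCoeTOfCoeDep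
  CanonicallyOrderedAdd.toMulLeftMono NeZero.of_gt'
  NonUnitalAlgSemiHomClass.toDistribMulActionSemiHomClass
  Group.IsPerfect.subsingleton_of_isMulCommutative continuousSub_of_discreteTopology
  ProperSMul.toContinuousSMul TestFunctionClass.toDFunLike EquivLike.toFunLike
  instCoeHTCTOfCoeTailOfCoeHTC instCoeHTCOfCoeHeadOfCoeOTC ContDiffMapSupportedInClass.toDFunLike
  Int.decidableLTLE NonarchimedeanRing.toIsTopologicalRing Invertible.toNeZero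

/-! A sharper double sum estimate and the resulting large values estimate. -/

set_option autoImplicit false

namespace Pool.Agent.MP_71ac24_nt.H17R

open Finset Real
open scoped ComplexConjugate
open Pool.Agent.MP_71ac24_nt.H14 (ei Sep ei_add norm_ei ei_zero conj_ei norm_ei_sub continuous_ei)
open Pool.Agent.MP_71ac24_nt.H17

/-- reduced fractions of height at most `H` between `1/2` and `2` -/
def fr (H : ℕ) : Finset (ℕ × ℕ) :=
  (Icc 1 H ×ˢ Icc 1 H).filter fun f => Nat.Coprime f.1 f.2 ∧ f.1 ≤ 2 * f.2 ∧ f.2 ≤ 2 * f.1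

/-- the fractions whose numerator has all its primes in `A` and whose denominator has none -/
def good (A : Finset ℕ) (H : ℕ) : Finset (ℕ × ℕ) :=
  (fr H).filter fun f => f.1.primeFactors ⊆ A ∧ Disjoint f.2.primeFactors A

/-- the logarithm of a fraction -/
noncomputable def lg (f : ℕ × ℕ) : ℝ := Real.log f.1 - Real.log f.2

/-- the sum over fractions -/
noncomputable def SF (W : Finset ℤ) (F : Finset (ℕ × ℕ)) : ℝ := ∑ f ∈ F, ‖rho W (lg f)‖ ^ 2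

/-- the sum of `m ^ (i s)` over a finite set -/
noncomputable def ZI (I : Finset ℕ) (s : ℝ) : ℂ := ∑ m ∈ I, ei (s * Real.log m)

/-- the double sum -/
noncomputable def DS (W : Finset ℤ) (I : Finset ℕ) : ℝ :=
  ∑ t ∈ W, ∑ t' ∈ W, ‖ZI I ((t - t' : ℤ) : ℝ)‖ ^ 2

/-- the bound for the double sum -/
noncomputable def BD (k : ℕ) (h R T : ℝ) : ℝ :=
  R ^ 2 + h * R ^ (2 - 1 / k : ℝ) +
    T ^ (1 / (2 * k) : ℝ) * R ^ (2 - (2 * k + 1) / (2 * k * (k + 1)) : ℝ)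

/-- the bound for the operator norm -/
noncomputable def FF (k : ℕ) (N R T : ℝ) : ℝ :=
  N + R * N ^ (1 / 2 : ℝ) + T ^ (1 / 2 : ℝ) * R ^ (1 - 1 / (2 * k) : ℝ) +
    N ^ (1 / 2 : ℝ) * T ^ (1 / (4 * k) : ℝ) * R ^ (1 - (2 * k + 1) / (4 * k * (k + 1)) : ℝ)

/-- the amplitude after reflection -/
noncomputable def Am (r s θ : ℝ) : ℂ :=
  ∫ u in (-1 : ℝ)..2, ((wt (exp (u - θ)) * exp (u - θ) : ℝ) : ℂ) * ei (s * u - r ^ 2 * exp u)

lemma mem_fr {H : ℕ} {f : ℕ × ℕ} : f ∈ fr H ↔ (1 ≤ f.1 ∧ f.1 ≤ H) ∧ (1 ≤ f.2 ∧ f.2 ≤ H) ∧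
    Nat.Coprime f.1 f.2 ∧ f.1 ≤ 2 * f.2 ∧ f.2 ≤ 2 * f.1 := by
  simp only [fr, mem_filter, mem_product, mem_Icc, and_assoc]

lemma mem_good {A : Finset ℕ} {H : ℕ} {f : ℕ × ℕ} :
    f ∈ good A H ↔ f ∈ fr H ∧ f.1.primeFactors ⊆ A ∧ Disjoint f.2.primeFactors A := mem_filter

lemma abs_lg_le {H : ℕ} {f : ℕ × ℕ} (h : f ∈ fr H) : |lg f| ≤ 1 := by
  obtain ⟨⟨a1, -⟩, ⟨b1, -⟩, -, c1, c2⟩ := mem_fr.1 h
  have a0 : (0 : ℝ) < f.1 := by exact_mod_cast a1
  have b0 : (0 : ℝ) < f.2 := by exact_mod_cast b1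
  have d1 := Real.log_le_log a0 (show (f.1 : ℝ) ≤ 2 * f.2 by exact_mod_cast c1)
  have d2 := Real.log_le_log b0 (show (f.2 : ℝ) ≤ 2 * f.1 by exact_mod_cast c2)
  rw [Real.log_mul two_ne_zero b0.ne'] at d1
  rw [Real.log_mul two_ne_zero a0.ne'] at d2
  have := Real.log_two_lt_d9
  rw [lg, abs_le]
  constructor <;> linarith only [d2, this, d1]

lemma SF_nonneg (W : Finset ℤ) (F : Finset (ℕ × ℕ)) : 0 ≤ SF W F :=
  sum_nonneg fun _ _ => sq_nonneg _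

lemma DS_nonneg (W : Finset ℤ) (I : Finset ℕ) : 0 ≤ DS W I :=
  sum_nonneg fun _ _ => sum_nonneg fun _ _ => sq_nonneg _

lemma norm_ZI_neg (I : Finset ℕ) (s : ℝ) : ‖ZI I (-s)‖ = ‖ZI I s‖ := by
  rw [← Complex.norm_conj, ZI, ZI, map_sum]
  simp only [conj_ei, neg_mul, neg_neg]

lemma BD_nonneg (k : ℕ) {h R T : ℝ} (h0 : 0 ≤ h) (R0 : 0 ≤ R) (T0 : 0 ≤ T) : 0 ≤ BD k h R T := by
  unfold BD; positivity

lemma sq_le_BD (k : ℕ) {h R T : ℝ} (h0 : 0 ≤ h) (R0 : 0 ≤ R) (T0 : 0 ≤ T) :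
    R ^ 2 ≤ BD k h R T := by
  unfold BD
  rw [add_assoc]
  exact le_add_of_nonneg_right (by positivity)

/-- the bound is monotone and sublinear in the height -/
lemma BD_le (k : ℕ) {h h' c R T : ℝ} (c1 : 1 ≤ c) (hh : h ≤ c * h') (R0 : 0 ≤ R) (T0 : 0 ≤ T) :
    BD k h R T ≤ c * BD k h' R T := by
  unfold BD
  have a1 : 0 ≤ R ^ (2 - 1 / k : ℝ) := by positivity
  have a2 : 0 ≤ T ^ (1 / (2 * k) : ℝ) * R ^ (2 - (2 * k + 1) / (2 * k * (k + 1)) : ℝ) := by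
    positivity
  have a3 := mul_le_mul_of_nonneg_right hh a1
  have a4 := mul_le_mul_of_nonneg_right c1 a2
  have a5 := mul_le_mul_of_nonneg_right c1 (sq_nonneg R)
  linarith

lemma FF_nonneg (k : ℕ) {N R T : ℝ} (N0 : 0 ≤ N) (R0 : 0 ≤ R) (T0 : 0 ≤ T) : 0 ≤ FF k N R T := by
  unfold FF; positivity

lemma le_FF (k : ℕ) {N R T : ℝ} (N0 : 0 ≤ N) (R0 : 0 ≤ R) (T0 : 0 ≤ T) : N ≤ FF k N R T := by
  unfold FF
  rw [add_assoc, add_assoc]
  exact le_add_of_nonneg_right (by positivity)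

lemma FF_mono (k : ℕ) {N N' R T T' : ℝ} (N0 : 0 ≤ N) (hN : N ≤ N') (R0 : 0 ≤ R) (T0 : 0 ≤ T)
    (hT : T ≤ T') : FF k N R T ≤ FF k N' R T' := by
  have N1 := N0.trans hN
  have T1 := T0.trans hT
  unfold FF
  gcongr


section

theorem l2long {ι : Type} (Q : Finset ι) (ζ : ι → ℝ) {L K : ℕ} (hL : 1 ≤ L) {ν : ℝ}
    (hζ : ∀ q ∈ Q, |ζ q| ≤ K)
    (hν : ∀ z : ℝ, (#{q ∈ Q | z ≤ ζ q ∧ ζ q ≤ z + 1 / L} : ℝ) ≤ ν) (S : Finset ℤ)
    (hS : ∀ t ∈ S, |t| ≤ L) (γ : ι → ℂ) :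
    ∑ t ∈ S, ‖∑ q ∈ Q, γ q * ei (t * ζ q)‖ ^ 2 ≤ 26 * (K + 1) * ν * L * ∑ q ∈ Q, ‖γ q‖ ^ 2 := by
  classical
  set φ : ι → ℕ := fun q => ⌊(ζ q + K) / 5⌋₊ with hφ
  have K0 : (0 : ℝ) ≤ K := Nat.cast_nonneg _
  have hm : ∀ q ∈ Q, φ q ∈ range (K + 1) := fun q hq => by
    have h := abs_le.1 (hζ q hq)
    exact mem_range.2 (Nat.lt_succ_of_le (Nat.floor_le_of_le (by linarith only [h.2])))
  have h1 : ∀ i ∈ range (K + 1), ∑ t ∈ S, ‖∑ q ∈ Q with φ q = i, γ q * ei (t * ζ q)‖ ^ 2 ≤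
      26 * ν * L * ∑ q ∈ Q with φ q = i, ‖γ q‖ ^ 2 := fun i _ => by
    refine H54.mom_l2 _ ζ hL (b := 5 * i - K) (fun q hq => ?_) (fun z => le_trans ?_ (hν z)) S hS γ
    · obtain ⟨hq, e⟩ := mem_filter.1 hq
      have h := abs_le.1 (hζ q hq)
      have a1 := Nat.floor_le (a := (ζ q + K) / 5) (by linarith only [h.1])
      have a2 := Nat.lt_floor_add_one ((ζ q + K) / 5)
      simp only [hφ] at e
      rw [e] at a1 a2
      constructor <;> linarith only [a1, a2]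
    · exact_mod_cast card_le_card (filter_subset_filter _ (filter_subset _ _))
  have h2 : ∀ t ∈ S, ‖∑ q ∈ Q, γ q * ei (t * ζ q)‖ ^ 2 ≤
      (K + 1) * ∑ i ∈ range (K + 1), ‖∑ q ∈ Q with φ q = i, γ q * ei (t * ζ q)‖ ^ 2 := fun t _ => by
    rw [← sum_fiberwise_of_maps_to hm]
    refine (pow_le_pow_left₀ (norm_nonneg _) (norm_sum_le _ _) 2).trans ?_
    refine (sq_sum_le_card_mul_sum_sq (s := range (K + 1))).trans_eq ?_
    rw [card_range, Nat.cast_add, Nat.cast_one]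
  refine (sum_le_sum h2).trans ?_
  rw [← mul_sum, sum_comm]
  refine (mul_le_mul_of_nonneg_left (sum_le_sum h1) (by linarith only [])).trans_eq ?_
  rw [← mul_sum, sum_fiberwise_of_maps_to hm]
  ring

lemma lng_sq {α : Type} (A : Finset α) (g : α → ℝ) :
    ((‖∑ a ∈ A, ei (g a)‖ ^ 2 : ℝ) : ℂ) = ∑ a ∈ A, ∑ b ∈ A, ei (g a - g b) := by
  rw [Complex.ofReal_pow, ← Complex.mul_conj', map_sum, sum_mul_sum]
  refine sum_congr rfl fun a _ => sum_congr rfl fun b _ => ?_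
  rw [conj_ei, ← ei_add, sub_eq_add_neg]

lemma lng_swap (W : Finset ℤ) (I : Finset ℕ) :
    DS W I = ∑ p ∈ I ×ˢ I, ‖rho W (Real.log p.1 - Real.log p.2)‖ ^ 2 := by
  apply Complex.ofReal_injective
  rw [DS, ← sum_product', Complex.ofReal_sum, Complex.ofReal_sum]
  simp only [ZI, rho, lng_sq, ← sum_product']
  rw [sum_product_right, sum_product (I ×ˢ I)]
  refine sum_congr rfl fun p _ => sum_congr rfl fun t _ => ?_
  congr 1
  push_cast
  ring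

theorem dsum (W : Finset ℤ) {P : ℕ} (hP : 1 ≤ P) (I : Finset ℕ)
    (hI : ∀ m ∈ I, P ≤ m ∧ m ≤ 2 * P) :
    DS W I ≤ ∑ d ∈ Icc 1 (2 * P), SF W (fr (2 * P / d)) := by
  classical
  have hm : ∀ p ∈ I ×ˢ I, Nat.gcd p.1 p.2 ∈ Icc 1 (2 * P) := fun p hp => by
    have h := hI _ (mem_product.1 hp).1
    exact mem_Icc.2 ⟨Nat.gcd_pos_of_pos_left _ (by omega),
      (Nat.gcd_le_left _ (by omega)).trans h.2⟩
  rw [lng_swap, ← sum_fiberwise_of_maps_to hm]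
  refine sum_le_sum fun d hd => ?_
  have d0 : 0 < d := (mem_Icc.1 hd).1
  have dR : (d : ℝ) ≠ 0 := by exact_mod_cast d0.ne'
  have key : ∀ p ∈ (I ×ˢ I).filter fun p => Nat.gcd p.1 p.2 = d,
      ∃ f ∈ fr (2 * P / d), p = (d * f.1, d * f.2) := fun p hp => by
    obtain ⟨hp, e⟩ := mem_filter.1 hp
    have h1 := hI _ (mem_product.1 hp).1
    have h2 := hI _ (mem_product.1 hp).2
    obtain ⟨a, ha⟩ : d ∣ p.1 := e ▸ Nat.gcd_dvd_left _ _
    obtain ⟨b, hb⟩ : d ∣ p.2 := e ▸ Nat.gcd_dvd_right _ _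
    refine ⟨(a, b), mem_fr.2 ⟨⟨?_, ?_⟩, ⟨?_, ?_⟩, ?_, ?_, ?_⟩, Prod.ext ha hb⟩
    · exact Nat.pos_of_ne_zero fun h : a = 0 => by rw [h] at ha; omega
    · exact (Nat.le_div_iff_mul_le d0).2 (by rw [mul_comm, ← ha]; exact h1.2)
    · exact Nat.pos_of_ne_zero fun h : b = 0 => by rw [h] at hb; omega
    · exact (Nat.le_div_iff_mul_le d0).2 (by rw [mul_comm, ← hb]; exact h2.2)
    · rw [ha, hb, Nat.gcd_mul_left] at e
      exact Nat.eq_of_mul_eq_mul_left d0 (e.trans (mul_one d).symm)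
    · exact Nat.le_of_mul_le_mul_left (by rw [mul_left_comm, ← ha, ← hb]; omega) d0
    · exact Nat.le_of_mul_le_mul_left (by rw [mul_left_comm, ← ha, ← hb]; omega) d0
  have sub : ((I ×ˢ I).filter fun p => Nat.gcd p.1 p.2 = d) ⊆
      (fr (2 * P / d)).image fun f => (d * f.1, d * f.2) := fun p hp => by
    obtain ⟨f, hf, e⟩ := key p hp
    exact mem_image.2 ⟨f, hf, e.symm⟩
  refine (sum_le_sum_of_subset_of_nonneg sub fun _ _ _ => sq_nonneg _).trans ?_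
  refine (sum_image_le_of_nonneg fun _ _ => sq_nonneg _).trans_eq ?_
  refine sum_congr rfl fun f hf => ?_
  obtain ⟨⟨a1, -⟩, ⟨b1, -⟩, -⟩ := mem_fr.1 hf
  have a0 : (f.1 : ℝ) ≠ 0 := by exact_mod_cast (show f.1 ≠ 0 by omega)
  have b0 : (f.2 : ℝ) ≠ 0 := by exact_mod_cast (show f.2 ≠ 0 by omega)
  simp only [lg, Nat.cast_mul, Real.log_mul dR a0, Real.log_mul dR b0, add_sub_add_left_eq_sub]

end

section

/-! ### block COL -/

lemma col_omega {n : ℕ} (hn : n ≠ 0) : 2 ^ #n.primeFactors ≤ #n.divisors := by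
  rw [Nat.card_divisors hn]
  refine pow_card_le_prod _ _ _ fun p hp => ?_
  have := (Nat.prime_of_mem_primeFactors hp).factorization_pos_of_dvd hn
    (Nat.dvd_of_mem_primeFactors hp)
  omega

lemma col_card {U X Y : Finset ℕ} (hX : X ⊆ U) (hXY : Disjoint X Y) :
    #U.powerset ≤ #{A ∈ U.powerset | X ⊆ A ∧ Disjoint Y A} * (2 ^ #X * 2 ^ #Y) := by
  rw [← card_powerset X, ← card_powerset Y, ← card_product, ← card_product]
  refine card_le_card_of_injOn (fun A => ((A ∪ X) \ Y, A ∩ X, A ∩ Y)) (fun A hA => ?_)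
    fun A _ B _ h => ?_
  · simp only [coe_product, Set.mem_prod, mem_coe, mem_filter, mem_powerset] at hA ⊢
    exact ⟨⟨sdiff_subset.trans (union_subset hA hX),
      subset_sdiff.2 ⟨subset_union_right, hXY⟩, disjoint_sdiff⟩, inter_subset_right,
      inter_subset_right⟩
  · simp only [Prod.mk.injEq, Finset.ext_iff, mem_sdiff, mem_union, mem_inter] at h
    ext x
    have h1 := h.1 x
    have h2 := h.2.1 x
    have h3 := h.2.2 x
    tauto

theorem colour (H : ℕ) {E : ℝ} (tau : ∀ n : ℕ, n ≠ 0 → n ≤ H → (#n.divisors : ℝ) ≤ E)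
    (g : ℕ × ℕ → ℝ) (hg : ∀ f, 0 ≤ g f) :
    ∃ A : Finset ℕ, ∑ f ∈ fr H, g f ≤ E ^ 2 * ∑ f ∈ good A H, g f := by
  suffices h : ∑ A ∈ (range (H + 1)).powerset, ∑ f ∈ fr H, g f ≤
      ∑ A ∈ (range (H + 1)).powerset, E ^ 2 * ∑ f ∈ good A H, g f by
    obtain ⟨A, -, hA⟩ := exists_le_of_sum_le ⟨∅, empty_mem_powerset _⟩ h
    exact ⟨A, hA⟩
  simp only [good, sum_filter, mul_sum]
  rw [sum_comm, sum_comm (s := (range (H + 1)).powerset)]
  refine sum_le_sum fun f hf => ?_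
  obtain ⟨⟨a1, a2⟩, ⟨b1, b2⟩, c, -⟩ := mem_fr.1 hf
  have a0 : f.1 ≠ 0 := by omega
  have b0 : f.2 ≠ 0 := by omega
  have e1 : (2 : ℝ) ^ #f.1.primeFactors ≤ E :=
    le_trans (by exact_mod_cast col_omega a0) (tau _ a0 a2)
  have e2 : (2 : ℝ) ^ #f.2.primeFactors ≤ E :=
    le_trans (by exact_mod_cast col_omega b0) (tau _ b0 b2)
  have e3 : (2 : ℝ) ^ #f.1.primeFactors * 2 ^ #f.2.primeFactors ≤ E ^ 2 := by
    rw [sq]
    exact mul_le_mul e1 e2 (by positivity) (le_trans (by positivity) e1)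
  have k := col_card (U := range (H + 1)) (X := f.1.primeFactors) (Y := f.2.primeFactors)
    (fun p hp => mem_range.2 (Nat.lt_succ_of_le ((Nat.le_of_mem_primeFactors hp).trans a2)))
    c.disjoint_primeFactors
  have k' := (Nat.cast_le (α := ℝ)).2 k
  push_cast at k'
  rw [← mul_sum, ← sum_filter, sum_const, sum_const, nsmul_eq_mul, nsmul_eq_mul, ← mul_assoc]
  refine mul_le_mul_of_nonneg_right (k'.trans ?_) (hg f)
  rw [mul_comm]
  exact mul_le_mul_of_nonneg_right e3 (Nat.cast_nonneg _)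

end

section

lemma win_le {x y L : ℕ} (x1 : 1 ≤ x) (y1 : 1 ≤ y) (hx : x < L)
    (h : Real.log x - Real.log y ≤ 1 / L) : x ≤ y := by
  have x0 : (0 : ℝ) < x := by exact_mod_cast x1
  have y0 : (0 : ℝ) < y := by exact_mod_cast y1
  have x2 : (x : ℝ) < L := by exact_mod_cast hx
  have h3 := Real.one_sub_inv_le_log_of_pos (div_pos x0 y0)
  rw [Real.log_div x0.ne' y0.ne', inv_div] at h3
  have h5 : ((x : ℝ) - y) / x ≤ 1 / L := by
    rw [sub_div, div_self x0.ne']; linarith only [h, h3]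
  rw [div_le_div_iff₀ x0 (by linarith only [x0, x2])] at h5
  have h7 : (x : ℝ) - y < 1 := lt_of_mul_lt_mul_right (a := (L : ℝ)) (by linarith only [x2, h5]) (by linarith only [x0, x2])
  exact Nat.lt_succ_iff.1 (by exact_mod_cast (show (x : ℝ) < y + 1 by linarith only [h7]))

lemma win_prod {A : Finset ℕ} {H j : ℕ} {q : Fin j → ℕ × ℕ} (hq : ∀ i, q i ∈ good A H) :
    (1 ≤ ∏ i, (q i).1 ∧ ∏ i, (q i).1 ≤ H ^ j) ∧ (1 ≤ ∏ i, (q i).2 ∧ ∏ i, (q i).2 ≤ H ^ j) ∧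
      Nat.Coprime (∏ i, (q i).1) (∏ i, (q i).2) ∧
      ∑ i, lg (q i) = Real.log (∏ i, (q i).1 : ℕ) - Real.log (∏ i, (q i).2 : ℕ) := by
  have g := fun i => mem_good.1 (hq i)
  have f := fun i => mem_fr.1 (g i).1
  refine ⟨⟨one_le_prod' fun i _ => (f i).1.1, ?_⟩, ⟨one_le_prod' fun i _ => (f i).2.1.1, ?_⟩,
    Nat.Coprime.prod_left fun i _ => Nat.Coprime.prod_right fun k _ => ?_, ?_⟩
  · simpa only [card_univ, Fintype.card_fin] using prod_le_pow_card univ (fun i => (q i).1) H fun i _ => (f i).1.2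
  · simpa only [card_univ, Fintype.card_fin] using prod_le_pow_card univ (fun i => (q i).2) H fun i _ => (f i).2.1.2
  · have a := (f i).1.1
    have b := (f k).2.1.1
    exact (Nat.disjoint_primeFactors (by omega) (by omega)).1
      ((g k).2.2.symm.mono_left (g i).2.1)
  · rw [Nat.cast_prod, Nat.cast_prod, Real.log_prod fun i _ => ?_, Real.log_prod fun i _ => ?_,
      ← sum_sub_distrib]
    · rfl
    · exact Nat.cast_ne_zero.2 (by have := (f i).2.1.1; omega)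
    · exact Nat.cast_ne_zero.2 (by have := (f i).1.1; omega)

theorem win (A : Finset ℕ) (H j L : ℕ) {E : ℝ} (hL : H ^ (2 * j) < L)
    (tau : ∀ n : ℕ, n ≠ 0 → n ≤ H ^ j → (#n.divisors : ℝ) ≤ E) (z : ℝ) :
    (#{q ∈ Fintype.piFinset fun _ : Fin j => good A H |
      z ≤ ∑ i, lg (q i) ∧ ∑ i, lg (q i) ≤ z + 1 / L} : ℝ) ≤ E ^ (2 * j) := by
  set F := {q ∈ Fintype.piFinset fun _ : Fin j => good A H |
    z ≤ ∑ i, lg (q i) ∧ ∑ i, lg (q i) ≤ z + 1 / L} with hF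
  rcases F.eq_empty_or_nonempty with h | ⟨q0, h0⟩
  · rw [h, card_empty, Nat.cast_zero, pow_mul]; positivity
  obtain ⟨m0, l0, u0⟩ := mem_filter.1 h0
  obtain ⟨⟨a1, a2⟩, ⟨b1, b2⟩, c0, e0⟩ := win_prod (Fintype.mem_piFinset.1 m0)
  rw [e0] at l0 u0
  generalize ∏ i, (q0 i).1 = a0 at *
  generalize ∏ i, (q0 i).2 = b0 at *
  have sub : F ⊆ Fintype.piFinset fun _ : Fin j => a0.divisors ×ˢ b0.divisors := fun q hq => by
    obtain ⟨m, l, u⟩ := mem_filter.1 hq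
    obtain ⟨⟨a3, a4⟩, ⟨b3, b4⟩, c, e⟩ := win_prod (Fintype.mem_piFinset.1 m)
    rw [e] at l u
    have lm : ∀ {x y : ℕ}, 1 ≤ x → 1 ≤ y → Real.log (x * y : ℕ) = Real.log x + Real.log y :=
      fun hx hy => by
        rw [Nat.cast_mul, Real.log_mul (Nat.cast_ne_zero.2 (by omega))
          (Nat.cast_ne_zero.2 (by omega))]
    have lt : ∀ {x y : ℕ}, x ≤ H ^ j → y ≤ H ^ j → x * y < L := fun hx hy =>
      (Nat.mul_le_mul hx hy).trans_lt (by rwa [← pow_add, ← two_mul])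
    have eq : (∏ i, (q i).1) * b0 = a0 * ∏ i, (q i).2 := le_antisymm
      (win_le (Nat.mul_pos a3 b1) (Nat.mul_pos a1 b3) (lt a4 b2)
        (by rw [lm a3 b1, lm a1 b3]; linarith only [l0, u]))
      (win_le (Nat.mul_pos a1 b3) (Nat.mul_pos a3 b1) (lt a2 b4)
        (by rw [lm a3 b1, lm a1 b3]; linarith only [u0, l]))
    have d1 : ∏ i, (q i).1 ∣ a0 := c.dvd_of_dvd_mul_right ⟨b0, eq.symm⟩
    have d2 : ∏ i, (q i).2 ∣ b0 := c.symm.dvd_of_dvd_mul_left ⟨a0, eq.trans (mul_comm _ _)⟩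
    exact Fintype.mem_piFinset.2 fun i => mem_product.2
      ⟨Nat.mem_divisors.2 ⟨(dvd_prod_of_mem _ (mem_univ i)).trans d1, by omega⟩,
        Nat.mem_divisors.2 ⟨(dvd_prod_of_mem _ (mem_univ i)).trans d2, by omega⟩⟩
  have c := (Nat.cast_le (α := ℝ)).2 (card_le_card sub)
  rw [Fintype.card_piFinset, prod_const, card_univ, Fintype.card_fin, Nat.cast_pow, card_product,
    Nat.cast_mul] at c
  have t1 := tau a0 (by omega) a2
  have t2 := tau b0 (by omega) b2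
  rw [pow_mul, sq]
  exact c.trans (pow_le_pow_left₀ (by positivity)
    (mul_le_mul t1 t2 (Nat.cast_nonneg _) ((Nat.cast_nonneg _).trans t1)) j)

end

section

/-! ### block LAM -/

theorem lam_dual (W : Finset ℤ) (F : Finset (ℕ × ℕ)) :
    SF W F ≤ ∑ t ∈ W, ‖∑ f ∈ F, conj (rho W (lg f)) * ei (t * lg f)‖ := by
  have h : ((SF W F : ℝ) : ℂ) = ∑ t ∈ W, ∑ f ∈ F, conj (rho W (lg f)) * ei (t * lg f) := by
    rw [sum_comm, SF]
    push_cast
    refine sum_congr rfl fun f _ => ?_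
    rw [← mul_sum, ← Complex.conj_mul']
    rfl
  calc SF W F ≤ ‖((SF W F : ℝ) : ℂ)‖ := by rw [Complex.norm_real]; exact le_abs_self _
    _ ≤ _ := by rw [h]; exact norm_sum_le _ _

theorem lam_pow (j : ℕ) (F : Finset (ℕ × ℕ)) (g : ℕ × ℕ → ℂ) (s : ℝ) :
    ‖∑ f ∈ F, g f * ei (s * lg f)‖ ^ (2 * j) =
      ‖∑ q ∈ Fintype.piFinset fun _ : Fin j => F, (∏ i, g (q i)) * ei (s * ∑ i, lg (q i))‖ ^ 2 := by
  rw [mul_comm 2 j, pow_mul, ← norm_pow]
  congr 2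
  rw [← Fin.prod_const, prod_univ_sum]
  refine sum_congr rfl fun q _ => ?_
  rw [prod_mul_distrib, mul_sum]
  simp only [ei, Complex.ofReal_sum, mul_sum, Complex.exp_sum]

theorem lam_good {j : ℕ} (hj : 1 ≤ j) (A : Finset ℕ) (H T : ℕ) {E : ℝ} (hE : 1 ≤ E)
    (tau : ∀ n : ℕ, n ≠ 0 → n ≤ H ^ j → (#n.divisors : ℝ) ≤ E) (W : Finset ℤ)
    (hW : ∀ t ∈ W, 0 ≤ t ∧ t ≤ T) :
    SF W (good A H) ^ j ≤
      26 * (j + 1) * E ^ (2 * j) * (T + H ^ (2 * j) + 1) * (#W : ℝ) ^ (2 * j - 1) := by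
  have h := l2long (Fintype.piFinset fun _ : Fin j => good A H) (fun q => ∑ i, lg (q i))
    (L := T + H ^ (2 * j) + 1) (K := j) (by omega) (ν := E ^ (2 * j))
    (fun q hq => (abs_sum_le_sum_abs _ _).trans ((sum_le_sum fun i _ =>
      abs_lg_le (mem_good.1 (Fintype.mem_piFinset.1 hq i)).1).trans (by simp only [sum_const, card_univ, Fintype.card_fin, nsmul_eq_mul, mul_one, Std.le_refl])))
    (win A H j _ (by omega) tau) W (fun t ht => by
      rw [abs_of_nonneg (hW t ht).1]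
      have := (hW t ht).2
      omega) fun q => ∏ i, conj (rho W (lg (q i)))
  have e : ∑ q ∈ Fintype.piFinset fun _ : Fin j => good A H,
      ‖∏ i, conj (rho W (lg (q i)))‖ ^ 2 = SF W (good A H) ^ j := by
    rw [SF, ← Fin.prod_const, prod_univ_sum]
    refine sum_congr rfl fun q _ => ?_
    simp only [norm_prod, Complex.norm_conj, prod_pow]
  rw [e] at h
  simp only [← lam_pow j (good A H) fun f => conj (rho W (lg f))] at h
  have S0 := SF_nonneg W (good A H)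
  have h1 := pow_le_pow_left₀ S0 (lam_dual W (good A H)) (2 * j - 1 + 1)
  have h2 := h1.trans (pow_sum_le_card_mul_sum_pow (fun t _ => norm_nonneg _) (2 * j - 1))
  rw [show 2 * j - 1 + 1 = 2 * j by omega] at h2
  have h3 := h2.trans (mul_le_mul_of_nonneg_left h (by positivity))
  rcases (pow_nonneg S0 j).eq_or_lt with h0 | h0
  · rw [← h0]; positivity
  · refine le_of_mul_le_mul_right ?_ h0
    rw [← pow_add, ← two_mul]
    refine h3.trans (le_of_eq ?_)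
    push_cast
    ring

theorem lamb {j : ℕ} (hj : 1 ≤ j) (H T : ℕ) {E : ℝ} (hE : 1 ≤ E)
    (tau : ∀ n : ℕ, n ≠ 0 → n ≤ H ^ j → (#n.divisors : ℝ) ≤ E) (W : Finset ℤ)
    (hW : ∀ t ∈ W, 0 ≤ t ∧ t ≤ T) :
    SF W (fr H) ^ j ≤ 26 * (j + 1) * E ^ (4 * j) * (T + H ^ (2 * j) + 1) * (#W : ℝ) ^ (2 * j - 1) := by
  obtain ⟨A, hA⟩ := colour H (fun n h0 hn => tau n h0 (hn.trans (Nat.le_self_pow (by omega) H)))
    (fun f => ‖rho W (lg f)‖ ^ 2) fun _ => sq_nonneg _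
  have h := pow_le_pow_left₀ (SF_nonneg W (fr H)) hA j
  rw [mul_pow] at h
  refine h.trans ((mul_le_mul_of_nonneg_left (lam_good hj A H T hE tau W hW)
    (by positivity)).trans (le_of_eq ?_))
  ring

end

section

/-! ### block OPT -/

lemma opt_root {j : ℕ} (hj : 1 ≤ j) {S h R T c : ℝ} (h0 : 0 ≤ h) (R0 : 0 ≤ R) (T0 : 0 ≤ T)
    (c0 : 0 ≤ c) (H : S ^ j ≤ c ^ j * (T + 2 * h ^ (2 * j)) * R ^ (2 * j - 1)) :
    S ≤ c * (T ^ (1 / j : ℝ) + 2 * h ^ 2) * R ^ (2 - 1 / j : ℝ) := by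
  have j0 : j ≠ 0 := by omega
  have j1 : (j : ℝ) ≠ 0 := by exact_mod_cast j0
  refine le_of_pow_le_pow_left₀ j0 (by positivity) (H.trans ?_)
  have e1 : (T ^ (1 / j : ℝ)) ^ j = T := by rw [one_div, Real.rpow_inv_natCast_pow T0 j0]
  have e2 : (R ^ (2 - 1 / j : ℝ)) ^ j = R ^ (2 * j - 1) := by
    rw [← Real.rpow_mul_natCast R0, ← Real.rpow_natCast]
    congr 1
    rw [Nat.cast_sub (by omega)]
    push_cast
    field_simp
  have a1 := pow_add_pow_le (x := T ^ (1 / j : ℝ)) (y := 2 * h ^ 2) (by positivity) (by positivity) j0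
  have a2 : 2 * h ^ (2 * j) ≤ (2 * h ^ 2) ^ j := by
    rw [mul_pow, ← pow_mul]
    exact mul_le_mul_of_nonneg_right (le_self_pow₀ one_le_two j0) (by positivity)
  rw [mul_pow, mul_pow, e2]
  rw [e1] at a1
  gcongr
  linarith only [a1, a2]

lemma opt_B {k j R T : ℝ} (hk : 1 ≤ k) (hj : k ≤ j) (R1 : 1 ≤ R) (T0 : 0 ≤ T) :
    T ^ (1 / (2 * j)) * R ^ (2 - (2 * j + 1) / (2 * j * (j + 1))) ≤
      R ^ 2 + T ^ (1 / (2 * k)) * R ^ (2 - (2 * k + 1) / (2 * k * (k + 1))) := by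
  have k0 : 0 < k := by linarith
  have j0 : 0 < j := by linarith
  have R0 : 0 < R := by linarith
  rcases T0.eq_or_lt with rfl | T1
  · rw [Real.zero_rpow (by positivity), zero_mul]; positivity
  have x0 := Real.log_nonneg R1
  have e : ∀ i : ℝ, 0 < i → T ^ (1 / (2 * i)) * R ^ (2 - (2 * i + 1) / (2 * i * (i + 1))) =
      R ^ 2 * exp (1 / (2 * i) * (Real.log T - (2 - 1 / (i + 1)) * Real.log R)) := fun i hi => by
    rw [Real.rpow_def_of_pos T1, Real.rpow_def_of_pos R0, ← Real.exp_add, ← Real.exp_log (pow_pos R0 2),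
      ← Real.exp_add, Real.log_pow]
    congr 1
    push_cast
    field_simp
    ring
  rw [e j j0, e k k0]
  have a1 : 1 / (j + 1) ≤ 1 / (k + 1) := one_div_le_one_div_of_le (by linarith) (by linarith)
  have a2 : 1 / (2 * j) ≤ 1 / (2 * k) := one_div_le_one_div_of_le (by linarith only [hk]) (by linarith)
  have a3 : 0 < 1 / (2 * j) := by positivity
  have a4 : Real.log T - (2 - 1 / (j + 1)) * Real.log R ≤
      Real.log T - (2 - 1 / (k + 1)) * Real.log R := by nlinarith only [x0, a1]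
  generalize Real.log T - (2 - 1 / (j + 1)) * Real.log R = g at a4
  generalize Real.log T - (2 - 1 / (k + 1)) * Real.log R = g' at a4
  have a5 := Real.exp_pos (1 / (2 * k) * g')
  have a6 : exp (1 / (2 * j) * g) ≤ 1 + exp (1 / (2 * k) * g') := by
    rcases le_total g' 0 with h | h
    · have : exp (1 / (2 * j) * g) ≤ 1 := Real.exp_le_one_iff.2 (by nlinarith only [a3, a4, h])
      linarith only [a5, this]
    · have : exp (1 / (2 * j) * g) ≤ exp (1 / (2 * k) * g') := Real.exp_le_exp.2 (by nlinarith only [a2, a3, a4, h])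
      linarith only [this]
  nlinarith only [a6]

theorem opt {k J : ℕ} (hk : 1 ≤ k) (hJ : k ≤ J) {S h R T c : ℝ} (S0 : 0 ≤ S) (h1 : 1 ≤ h)
    (R1 : 1 ≤ R) (T0 : 0 ≤ T) (c1 : 1 ≤ c) (triv : S ≤ h ^ 2 * R ^ 2)
    (H : ∀ j : ℕ, k ≤ j → j ≤ J → S ^ j ≤ c ^ j * (T + 2 * h ^ (2 * j)) * R ^ (2 * j - 1)) :
    S ≤ 3 * c * (1 + T ^ (1 / (2 * J) : ℝ)) * (h * BD k h R T) := by
  have R0 : 0 < R := by linarith only [R1]
  have h0 : 0 < h := by linarith only [h1]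
  have k1 : (1 : ℝ) ≤ k := by exact_mod_cast hk
  have B0 := BD_nonneg k h0.le R0.le T0
  have B1 := sq_le_BD k h0.le R0.le T0
  have hB : ∀ j : ℝ, k ≤ j →
      T ^ (1 / (2 * j)) * R ^ (2 - (2 * j + 1) / (2 * j * (j + 1))) ≤ BD k h R T := fun j hj => by
    refine (opt_B k1 hj R1 T0).trans ?_
    have : 0 ≤ h * R ^ (2 - 1 / k : ℝ) := by positivity
    unfold BD
    linarith only [this]
  have key : ∀ j : ℕ, k ≤ j → j ≤ J → h * R ^ (2 - 1 / j : ℝ) ≤ BD k h R T →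
      S ≤ 3 * c * (h * BD k h R T) ∨
        h ≤ T ^ (1 / (2 * j) : ℝ) * R ^ (1 / (2 * j + 2) - 1 / (2 * j) : ℝ) := fun j a1 a2 a3 => by
    refine or_iff_not_imp_right.2 fun a4 => ?_
    have j1 : (k : ℝ) ≤ j := by exact_mod_cast a1
    have j0 : (0 : ℝ) < j := by linarith only [k1, j1]
    have b1 := opt_root (hk.trans a1) h0.le R0.le T0 (by linarith only [c1]) (H j a1 a2)
    have b2 := hB j j1
    have b3 : T ^ (1 / j : ℝ) * R ^ (2 - 1 / j : ℝ) =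
        T ^ (1 / (2 * j) : ℝ) * R ^ (1 / (2 * j + 2) - 1 / (2 * j) : ℝ) *
          (T ^ (1 / (2 * j) : ℝ) * R ^ (2 - (2 * j + 1) / (2 * j * (j + 1)) : ℝ)) := by
      rw [mul_mul_mul_comm, ← Real.rpow_add R0,
        ← Real.rpow_add_of_nonneg T0 (by positivity) (by positivity)]
      congr 2 <;> field_simp <;> ring
    have b4 := mul_le_mul (not_le.1 a4).le b2 (by positivity) h0.le
    rw [← b3] at b4
    have b5 := mul_le_mul_of_nonneg_left a3 h0.le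
    refine b1.trans ?_
    rw [mul_assoc, mul_comm 3 c, mul_assoc c]
    refine mul_le_mul_of_nonneg_left ?_ (by linarith only [c1])
    linarith only [b4, b5]
  have ind : ∀ j : ℕ, k ≤ j → j ≤ J → S ≤ 3 * c * (h * BD k h R T) ∨
      h ≤ T ^ (1 / (2 * j) : ℝ) * R ^ (1 / (2 * j + 2) - 1 / (2 * j) : ℝ) := by
    intro j a1
    induction j, a1 using Nat.le_induction with
    | base =>
      refine fun a2 => key k le_rfl a2 ?_
      have : 0 ≤ T ^ (1 / (2 * k) : ℝ) * R ^ (2 - (2 * k + 1) / (2 * k * (k + 1)) : ℝ) := by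
        positivity
      unfold BD
      linarith only [sq_nonneg R, this]
    | succ j a1 ih =>
      intro a2
      rcases ih (by omega) with b | b
      · exact Or.inl b
      have j1 : (k : ℝ) ≤ j := by exact_mod_cast a1
      have j0 : (0 : ℝ) < j := by linarith only [k1, j1]
      refine key (j + 1) (by omega) a2 ((mul_le_mul_of_nonneg_right b (by positivity)).trans
        (le_trans (le_of_eq ?_) (hB j j1)))
      rw [mul_assoc, ← Real.rpow_add R0]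
      congr 2
      push_cast
      field_simp
      ring
  have x0 : 0 ≤ T ^ (1 / (2 * J) : ℝ) := by positivity
  have y0 : 0 ≤ h * BD k h R T := by positivity
  rcases ind J hJ le_rfl with b | b
  · have : 0 ≤ 3 * c * T ^ (1 / (2 * J) : ℝ) * (h * BD k h R T) := by positivity
    linarith only [b, this]
  have J1 : (1 : ℝ) ≤ J := by exact_mod_cast hk.trans hJ
  have b1 : R ^ (1 / (2 * J + 2) - 1 / (2 * J) : ℝ) ≤ 1 :=
    Real.rpow_le_one_of_one_le_of_nonpos R1 (sub_nonpos.2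
      (one_div_le_one_div_of_le (by linarith only [J1]) (by linarith only [])))
  have b2 := b.trans (mul_le_of_le_one_right x0 b1)
  generalize T ^ (1 / (2 * J) : ℝ) = x at x0 b2
  have b3 : h ^ 2 * R ^ 2 ≤ x * (h * BD k h R T) := by
    rw [pow_two h, mul_assoc]
    gcongr
  have b4 := mul_le_mul_of_nonneg_right c1 (mul_nonneg x0 y0)
  have b5 : 0 ≤ c * (h * BD k h R T) := by positivity
  linarith only [S0, triv, b3, b4, b5]

end

section

/-! ### block DSL -/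

lemma dsl_tau (J : ℕ) {η : ℝ} (hη : 0 < η) : ∃ C : ℝ, 1 ≤ C ∧ ∀ Y : ℕ, 1 ≤ Y → ∀ n : ℕ, n ≠ 0 →
    n ≤ (2 * Y) ^ J → (#n.divisors : ℝ) ≤ C * (Y : ℝ) ^ η := by
  obtain ⟨s, hs⟩ := exists_nat_ge (J / η)
  obtain ⟨C0, C1, hC⟩ := MP_e4c747_an.divisor_bound (s + 1)
  have C1' : (1 : ℝ) ≤ C0 := by exact_mod_cast C1
  have D1 : (1 : ℝ) ≤ C0 * 2 ^ J := one_le_mul_of_one_le_of_one_le C1' (one_le_pow₀ one_le_two)
  refine ⟨C0 * 2 ^ J, D1, fun Y hY n hn hnY => ?_⟩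
  have Y1 : (1 : ℝ) ≤ Y := by exact_mod_cast hY
  have h1 : (#n.divisors : ℝ) ^ (s + 1) ≤ C0 * (2 * Y) ^ J := by
    exact_mod_cast (hC n hn).trans (Nat.mul_le_mul_left _ hnY)
  have h2 : (Y : ℝ) ^ J ≤ ((Y : ℝ) ^ η) ^ (s + 1) := by
    rw [← Real.rpow_natCast, ← Real.rpow_natCast, ← Real.rpow_mul (by linarith only [Y1])]
    refine Real.rpow_le_rpow_of_exponent_le Y1 ?_
    rw [div_le_iff₀ hη] at hs
    push_cast
    linarith only [hη, hs]
  have h3 : (C0 * 2 ^ J : ℝ) ≤ (C0 * 2 ^ J) ^ (s + 1) := le_self_pow₀ D1 (Nat.succ_ne_zero s)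
  refine le_of_pow_le_pow_left₀ (Nat.succ_ne_zero s) (by positivity) (h1.trans ?_)
  rw [mul_pow, mul_pow (C0 * 2 ^ J : ℝ), ← mul_assoc]
  exact mul_le_mul h3 h2 (by positivity) (by positivity)

lemma dsl_triv (W : Finset ℤ) (H : ℕ) : SF W (fr H) ≤ (H : ℝ) ^ 2 * (#W : ℝ) ^ 2 := by
  have h1 : ∀ x, ‖rho W x‖ ≤ #W := fun x => by
    refine (norm_sum_le _ _).trans ?_
    simp [norm_ei]
  have h2 : #(fr H) ≤ H ^ 2 := by
    refine (card_filter_le _ _).trans ?_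
    simp only [card_product, Nat.card_Icc, add_tsub_cancel_right, sq, Std.le_refl]
  refine (sum_le_card_nsmul _ _ ((#W : ℝ) ^ 2) fun f _ =>
    pow_le_pow_left₀ (norm_nonneg _) (h1 _) 2).trans ?_
  rw [nsmul_eq_mul]
  exact mul_le_mul_of_nonneg_right (by exact_mod_cast h2) (sq_nonneg _)

lemma dsl_one {k J : ℕ} (hk : 1 ≤ k) (hJ : k ≤ J) {H M T : ℕ} (H1 : 1 ≤ H) (HM : H ≤ M) {E : ℝ}
    (hE : 1 ≤ E) (tau : ∀ n : ℕ, n ≠ 0 → n ≤ M ^ J → (#n.divisors : ℝ) ≤ E) (W : Finset ℤ)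
    (hW : ∀ t ∈ W, 0 ≤ t ∧ t ≤ T) (W1 : 1 ≤ #W) :
    SF W (fr H) ≤ 3 * (26 * (J + 1) * E ^ 4) * (1 + (T : ℝ) ^ (1 / (2 * J) : ℝ)) *
      (H * BD k H #W T) := by
  have h1 : (1 : ℝ) ≤ H := by exact_mod_cast H1
  have D1 : (1 : ℝ) ≤ 26 * (J + 1) := by
    have : (0 : ℝ) ≤ J := Nat.cast_nonneg _
    linarith only []
  refine opt hk hJ (SF_nonneg _ _) h1 (by exact_mod_cast W1) (Nat.cast_nonneg _)
    (one_le_mul_of_one_le_of_one_le D1 (one_le_pow₀ hE)) (dsl_triv W H) fun j kj jJ => ?_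
  have j1 : 1 ≤ j := hk.trans kj
  refine (lamb j1 H T hE (fun n hn h => tau n hn (h.trans ?_)) W hW).trans ?_
  · exact (Nat.pow_le_pow_left HM j).trans (Nat.pow_le_pow_right (H1.trans HM) jJ)
  · have a1 : (26 * (j + 1) : ℝ) ≤ (26 * (J + 1)) ^ j := by
      refine le_trans ?_ (le_self_pow₀ D1 (by omega))
      have : (j : ℝ) ≤ J := by exact_mod_cast jJ
      linarith only [this]
    have a2 : (1 : ℝ) ≤ (H : ℝ) ^ (2 * j) := one_le_pow₀ h1
    have a3 : (T : ℝ) + (H : ℝ) ^ (2 * j) + 1 ≤ T + 2 * (H : ℝ) ^ (2 * j) := by linarith only [a2]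
    rw [mul_pow (26 * (J + 1) : ℝ), ← pow_mul]
    exact mul_le_mul_of_nonneg_right (mul_le_mul (mul_le_mul_of_nonneg_right a1 (by positivity)) a3
      (by positivity) (by positivity)) (by positivity)

theorem ds_le {k : ℕ} (hk : 1 ≤ k) (ε : ℝ) (hε : 0 < ε) : ∃ C : ℝ, 0 < C ∧
    ∀ (Y P T : ℕ) (W : Finset ℤ) (I : Finset ℕ), 1 ≤ P → P ≤ Y → T ≤ Y →
      (∀ t ∈ W, 0 ≤ t ∧ t ≤ T) → 1 ≤ #W → (∀ m ∈ I, P ≤ m ∧ m ≤ 2 * P) →
      DS W I ≤ C * (Y : ℝ) ^ ε * (P * BD k P #W T) := by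
  obtain ⟨η, hη, rfl⟩ : ∃ η : ℝ, 0 < η ∧ ε = η * 6 := ⟨ε / 6, by positivity, by ring⟩
  obtain ⟨J0, hJ0⟩ := exists_nat_ge (1 / η)
  obtain ⟨J, kJ, J0J⟩ : ∃ J, k ≤ J ∧ J0 ≤ J := ⟨k + J0, by omega, by omega⟩
  obtain ⟨C, C1, hC⟩ := dsl_tau J hη
  refine ⟨3 * (26 * (J + 1) * C ^ 4) * 2 * 2 * (2 * (2 + 1 / η)), by positivity,
    fun Y P T W I P1 PY TY hW W1 hI => ?_⟩
  have Y1 : (1 : ℝ) ≤ Y := by exact_mod_cast P1.trans PY
  have p1 : (1 : ℝ) ≤ P := by exact_mod_cast P1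
  have pY : (P : ℝ) ≤ Y := by exact_mod_cast PY
  obtain ⟨y, hy⟩ : ∃ y, y = (Y : ℝ) ^ η := ⟨_, rfl⟩
  have y1 : 1 ≤ y := hy ▸ Real.one_le_rpow Y1 hη.le
  have y6 : (Y : ℝ) ^ (η * 6) = y ^ 6 := by
    rw [hy, Real.rpow_mul (by linarith only [Y1]), ← Real.rpow_natCast]
    norm_num
  have B0 : 0 ≤ BD k P #W T := BD_nonneg k (by positivity) (by positivity) (by positivity)
  have t1 : 1 + (T : ℝ) ^ (1 / (2 * J) : ℝ) ≤ 2 * y := by
    have J1 : (1 : ℝ) ≤ J := by exact_mod_cast hk.trans kJ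
    have e1 : (1 / (2 * J) : ℝ) ≤ η := by
      have : (J0 : ℝ) ≤ J := by exact_mod_cast J0J
      rw [div_le_iff₀ hη] at hJ0
      rw [div_le_iff₀ (by positivity)]
      nlinarith only [hJ0, J1, this]
    have := (Real.rpow_le_rpow (Nat.cast_nonneg T) (show (T : ℝ) ≤ Y by exact_mod_cast TY)
      (show (0 : ℝ) ≤ 1 / (2 * J) by positivity)).trans (Real.rpow_le_rpow_of_exponent_le Y1 e1)
    linarith only [hy, y1, this]
  have t2 : 1 + Real.log ((2 * P : ℕ) : ℝ) ≤ (2 + 1 / η) * y := by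
    have a1 := Real.log_le_rpow_div (Nat.cast_nonneg Y) hη
    have a2 := Real.log_le_log (by linarith only [p1]) pY
    have a3 := Real.log_two_lt_d9
    push_cast
    rw [Real.log_mul two_ne_zero (by linarith only [p1]), add_mul, one_div, mul_comm η⁻¹, ← div_eq_mul_inv]
    rw [← hy] at a1
    linarith only [y1, a1, a2, a3]
  have key : ∀ d ∈ Icc 1 (2 * P), SF W (fr (2 * P / d)) ≤
      3 * (26 * (J + 1) * (C * y) ^ 4) * (2 * y) * (2 * BD k P #W T) * (2 * P) * (1 / d) := by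
    intro d hd
    obtain ⟨d1, d2⟩ := mem_Icc.1 hd
    have H1 : 1 ≤ 2 * P / d := (Nat.le_div_iff_mul_le d1).2 (by omega)
    have H2 : 2 * P / d ≤ 2 * P := Nat.div_le_self _ _
    have H3 : ((2 * P / d : ℕ) : ℝ) ≤ 2 * P * (1 / d) := by
      have := @Nat.cast_div_le ℝ _ _ _ (2 * P) d
      push_cast at this
      rwa [mul_one_div]
    have H4 : BD k (2 * P / d : ℕ) #W T ≤ 2 * BD k P #W T :=
      BD_le k one_le_two (by exact_mod_cast H2) (by positivity) (by positivity)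
    have H5 : 0 ≤ BD k (2 * P / d : ℕ) #W T :=
      BD_nonneg k (by positivity) (by positivity) (by positivity)
    refine (dsl_one hk kJ H1 (H2.trans (Nat.mul_le_mul_left 2 PY))
      (one_le_mul_of_one_le_of_one_le C1 y1) (hy ▸ hC Y (P1.trans PY)) W hW W1).trans ?_
    rw [mul_assoc _ (2 * P : ℝ), mul_assoc _ (2 * BD k P #W T), mul_comm (2 * BD k P #W T)]
    gcongr
  refine (dsum W P1 I hI).trans ((sum_le_sum key).trans ?_)
  rw [← mul_sum]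
  refine (mul_le_mul_of_nonneg_left ((MP_e4c747_an.harm_le _).trans t2) (by positivity)).trans
    (le_of_eq ?_)
  rw [y6]
  ring

end

section

/-! ### block AMP -/

lemma amp_ibp {g g' : ℝ → ℂ} (hg : ∀ u, HasDerivAt g (g' u) u) (hc : Continuous g') (h2 : g 2 = 0)
    {B r : ℝ} (hB : ∀ u, ‖g' u‖ ≤ B) (hr : 1 ≤ r) (s : ℝ) :
    ‖∫ u in (-1 : ℝ)..2, g u * ei (s * u - r ^ 2 * exp u)‖ ≤ 294 * B / r := by
  have he : Continuous fun z : ℝ => ei (s * z - r ^ 2 * exp z) := by fun_prop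
  rw [intervalIntegral.integral_mul_deriv_eq_deriv_mul (v := fun y => H14.kern (r ^ 2) s (-1) y)
    (fun x _ => hg x) (fun x _ => (he.integral_hasStrictDerivAt (-1) x).hasDerivAt)
    (hc.intervalIntegrable _ _) (he.intervalIntegrable _ _)]
  have h0 : H14.kern (r ^ 2) s (-1) (-1) = 0 := intervalIntegral.integral_same
  rw [h0, h2, mul_zero, zero_mul, sub_zero, zero_sub, norm_neg]
  refine (intervalIntegral.norm_integral_le_of_norm_le_const (C := B * (98 / r))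
    fun x hx => ?_).trans (le_of_eq (by norm_num; ring))
  rw [Set.uIoc_of_le (by norm_num)] at hx
  rw [norm_mul]
  exact mul_le_mul (hB x) (sqr_kern hr s hx.1.le) (norm_nonneg _) ((norm_nonneg _).trans (hB x))

theorem amp : ∃ C : ℝ, 0 < C ∧ ∀ r s θ θ' : ℝ, 1 ≤ r → 0 ≤ θ → θ ≤ 1 → 0 ≤ θ' → θ' ≤ 1 →
    ‖Am r s θ‖ ≤ C / r ∧ ‖Am r s θ - Am r s θ'‖ ≤ C * |θ - θ'| / r := by
  obtain ⟨o, ho⟩ : ∃ o : ℝ → ℂ, o = fun z => ((wt (exp z) * exp z : ℝ) : ℂ) := ⟨_, rfl⟩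
  have sm : ContDiff ℝ 2 o := ho ▸ contDiff_infty.1 ibp_wt_smooth 2
  have z0 : ∀ z, 1 ≤ |z| → o z = 0 := ho ▸ ibp_wt_zero
  have cs : HasCompactSupport o := .intro (isCompact_Icc (a := -1) (b := 1)) fun x hx =>
    z0 x (le_of_not_gt fun h => hx ⟨(abs_lt.1 h).1.le, (abs_lt.1 h).2.le⟩)
  have d1 : ContDiff ℝ 1 (deriv o) := sm.deriv'
  obtain ⟨K, hK⟩ := d1.lipschitzWith_of_hasCompactSupport cs.deriv one_ne_zero
  obtain ⟨B, hB⟩ := d1.continuous.bounded_above_of_compact_support cs.deriv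
  have B0 : 0 ≤ B := (norm_nonneg _).trans (hB 0)
  have hd : ∀ θ u, HasDerivAt (fun u => o (u - θ)) (deriv o (u - θ)) u := fun θ u =>
    (sm.differentiable two_ne_zero _).hasDerivAt.comp_sub_const u θ
  have c0 := sm.continuous
  have c1 := d1.continuous
  have hA : ∀ r s θ, Am r s θ = ∫ u in (-1 : ℝ)..2, o (u - θ) * ei (s * u - r ^ 2 * exp u) :=
    fun r s θ => by rw [ho, Am]
  refine ⟨294 * (B + K + 1), by positivity, fun r s θ θ' hr a0 a1 b0 b1 => ⟨?_, ?_⟩⟩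
  · rw [hA]
    refine (amp_ibp (hd θ) (by fun_prop) (z0 _ (le_abs.2 (.inl (by linarith)))) (fun u => hB _)
      hr s).trans ?_
    gcongr
    linarith [K.2]
  · rw [hA, hA, ← intervalIntegral.integral_sub (Continuous.intervalIntegrable (by fun_prop) _ _)
      (Continuous.intervalIntegrable (by fun_prop) _ _)]
    simp only [← sub_mul]
    refine (amp_ibp (B := K * |θ - θ'|) (fun u => (hd θ u).sub (hd θ' u)) (by fun_prop) ?_
      (fun u => ?_) hr s).trans ?_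
    · simp only [Pi.sub_apply]
      rw [z0 _ (le_abs.2 (.inl (by linarith))), z0 _ (le_abs.2 (.inl (by linarith))), sub_zero]
    · have := hK.dist_le_mul (u - θ) (u - θ')
      rwa [dist_eq_norm, Real.dist_eq, sub_sub_sub_cancel_left, abs_sub_comm] at this
    · rw [mul_assoc]
      gcongr
      linarith

end

section

/-! ### block REF -/

lemma ref_sum {P Q : ℕ} (hPQ : P ≤ Q) (c A : ℕ → ℂ) : ∑ m ∈ Ico P Q, c m * A m =
    A Q * ∑ m ∈ Ico P Q, c m - ∑ x ∈ Ico P Q, (A (x + 1) - A x) * ∑ m ∈ Ico P (x + 1), c m := by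
  induction Q, hPQ using Nat.le_induction with
  | base => simp
  | succ Q h ih =>
    rw [sum_Ico_succ_top h, sum_Ico_succ_top h fun x => (A (x + 1) - A x) * _, ih,
      sum_Ico_succ_top h]
    ring

theorem abel {P Q : ℕ} (hPQ : P ≤ Q) (c A : ℕ → ℂ) {α β : ℝ} (hA : ‖A Q‖ ≤ α)
    (hd : ∀ m, P ≤ m → m < Q → ‖A (m + 1) - A m‖ ≤ β) :
    ‖∑ m ∈ Ico P Q, c m * A m‖ ≤
      α * ‖∑ m ∈ Ico P Q, c m‖ + β * ∑ x ∈ Ico P Q, ‖∑ m ∈ Ico P (x + 1), c m‖ := by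
  rw [ref_sum hPQ, mul_sum _ _ β]
  refine (norm_sub_le _ _).trans (add_le_add ?_ (norm_sum_le_of_le _ fun x hx => ?_))
  · rw [norm_mul]
    exact mul_le_mul_of_nonneg_right hA (norm_nonneg _)
  · rw [norm_mul]
    exact mul_le_mul_of_nonneg_right (hd x (mem_Ico.1 hx).1 (mem_Ico.1 hx).2) (norm_nonneg _)

lemma ref_ext {f : ℝ → ℂ} (hf : Continuous f) (h0 : ∀ z, 1 ≤ |z| → f z = 0) {θ : ℝ} (h1 : 0 ≤ θ)
    (h2 : θ ≤ 1) : ∫ z in (-1 : ℝ)..1, f z = ∫ u in (-1 : ℝ)..2, f (u - θ) := by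
  have z1 : ∫ z in (-1 - θ : ℝ)..(-1), f z = 0 := by
    rw [intervalIntegral.integral_congr (g := fun _ => 0) fun z hz => h0 z ?_]
    · simp
    · rw [Set.uIcc_of_le (by linarith)] at hz
      exact le_abs.2 (.inr (by linarith [hz.2]))
  have z2 : ∫ z in (1 : ℝ)..(2 - θ), f z = 0 := by
    rw [intervalIntegral.integral_congr (g := fun _ => 0) fun z hz => h0 z ?_]
    · simp
    · rw [Set.uIcc_of_le (by linarith)] at hz
      exact le_abs.2 (.inl hz.1)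
  have a1 := intervalIntegral.integral_add_adjacent_intervals (μ := MeasureTheory.volume)
    (hf.intervalIntegrable (-1 - θ) (-1)) (hf.intervalIntegrable (-1) (2 - θ))
  have a2 := intervalIntegral.integral_add_adjacent_intervals (μ := MeasureTheory.volume)
    (hf.intervalIntegrable (-1) 1) (hf.intervalIntegrable 1 (2 - θ))
  rw [intervalIntegral.integral_comp_sub_right, ← a1, ← a2, z1, z2, zero_add, add_zero]

lemma ref_wt {z : ℝ} (h : 1 ≤ |z|) : wt (exp z) = 0 := by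
  refine wt_zero ((le_abs.1 h).symm.imp (fun h => ?_) fun h => ?_)
  · have h1 := Real.add_one_le_exp (-z)
    have h2 : exp z * exp (-z) = 1 := by rw [← Real.exp_add, add_neg_cancel, Real.exp_zero]
    nlinarith [Real.exp_pos z]
  · linarith only [Real.exp_one_gt_d9, Real.exp_le_exp.2 h]

lemma ref_th {P m : ℕ} (hP : 1 ≤ P) (h1 : P ≤ m) (h2 : m ≤ 2 * P) :
    0 ≤ Real.log m - Real.log P ∧ Real.log m - Real.log P ≤ 1 := by
  have p0 : (0 : ℝ) < P := by exact_mod_cast hP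
  have m0 : (0 : ℝ) < m := by exact_mod_cast hP.trans h1
  have d1 := Real.log_le_log p0 (show (P : ℝ) ≤ m by exact_mod_cast h1)
  have d2 := Real.log_le_log m0 (show (m : ℝ) ≤ 2 * P by exact_mod_cast h2)
  rw [Real.log_mul two_ne_zero p0.ne'] at d2
  have := Real.log_two_lt_d9
  constructor <;> linarith only [d1, d2, this]

lemma ref_im (N : ℕ) {P m : ℕ} (hP : 1 ≤ P) (h1 : P ≤ m) (h2 : m ≤ 2 * P) (s : ℝ) :
    Im N s (m : ℕ) = N * ei (s * Real.log N) * ei (s * Real.log P) * (ei (-s * Real.log m) *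
      Am (√(2 * π * P * N)) s (Real.log m - Real.log P)) := by
  have p0 : (0 : ℝ) < P := by exact_mod_cast hP
  have m0 : (0 : ℝ) < m := by exact_mod_cast hP.trans h1
  have c1 := continuous_ei
  have c2 := wt_smooth.continuous
  rw [Im, ref_ext (by unfold e; fun_prop) (fun z hz => by simp [ref_wt hz]) (ref_th hP h1 h2).1
    (ref_th hP h1 h2).2, mul_assoc _ (ei (s * Real.log P)), ← mul_assoc (ei (s * Real.log P)), Am]
  congr 1
  rw [← intervalIntegral.integral_const_mul]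
  refine intervalIntegral.integral_congr fun u _ => ?_
  have e1 : (m : ℝ) * exp (u - (Real.log m - Real.log P)) = P * exp u := by
    rw [Real.exp_sub, Real.exp_sub, Real.exp_log m0, Real.exp_log p0]
    field_simp
  rw [e, mul_assoc _ (ei _), ← ei_add, ← ei_add, mul_left_comm, ← ei_add,
    Real.sq_sqrt (by positivity)]
  congr 2
  push_cast
  linear_combination (-2 * π * N) * e1

lemma ref_neg (N : ℕ) (s : ℝ) (m : ℤ) : Im N s (-m) = conj (Im N (-s) m) := by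
  rw [Im, Im, map_mul, map_mul, conj_ei, Complex.conj_natCast, neg_mul, neg_neg,
    intervalIntegral.integral_of_le (by norm_num), intervalIntegral.integral_of_le (by norm_num),
    ← integral_conj]
  congr 2
  funext z
  rw [map_mul, map_mul, Complex.conj_ofReal, e, e, conj_ei, conj_ei]
  congr 2
  · congr 1
    ring
  · push_cast
    ring

theorem refl : ∃ C : ℝ, 0 < C ∧ ∀ (N P : ℕ) (s : ℝ), 1 ≤ N → 1 ≤ P →
    ‖∑ m ∈ Ico P (2 * P), Im N s (m : ℕ)‖ ^ 2 ≤ C * N / P * (‖ZI (Ico P (2 * P)) s‖ ^ 2 +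
      1 / P * ∑ x ∈ Ico P (2 * P), ‖ZI (Ico P (x + 1)) s‖ ^ 2) ∧
    ‖∑ m ∈ Ico P (2 * P), Im N s (-(m : ℕ))‖ ^ 2 ≤ C * N / P * (‖ZI (Ico P (2 * P)) s‖ ^ 2 +
      1 / P * ∑ x ∈ Ico P (2 * P), ‖ZI (Ico P (x + 1)) s‖ ^ 2) := by
  obtain ⟨C, C0, hC⟩ := amp
  have key : ∀ (N P : ℕ) (s : ℝ), 1 ≤ N → 1 ≤ P →
      ‖∑ m ∈ Ico P (2 * P), Im N s (m : ℕ)‖ ^ 2 ≤ C ^ 2 * N / P * (‖ZI (Ico P (2 * P)) s‖ ^ 2 +
      1 / P * ∑ x ∈ Ico P (2 * P), ‖ZI (Ico P (x + 1)) s‖ ^ 2) := fun N P s hN hP => by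
    have p1 : (1 : ℝ) ≤ P := by exact_mod_cast hP
    have n1 : (1 : ℝ) ≤ N := by exact_mod_cast hN
    have pi3 := Real.pi_gt_three
    have pn : (1 : ℝ) ≤ P * N := one_le_mul_of_one_le_of_one_le p1 n1
    obtain ⟨r, hr⟩ : ∃ r, r = √(2 * π * P * N) := ⟨_, rfl⟩
    have r2 : r ^ 2 = 2 * π * P * N := hr ▸ Real.sq_sqrt (by positivity)
    have r1 : 1 ≤ r := hr ▸ Real.one_le_sqrt.2 (by nlinarith only [pi3, pn])
    have a := abel (show P ≤ 2 * P by omega) (fun m => ei (-s * Real.log m))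
      (fun m => Am r s (Real.log m - Real.log P)) (α := C / r) (β := C / r / P)
      (hC r s _ 0 r1 (ref_th hP (by omega) le_rfl).1 (ref_th hP (by omega) le_rfl).2 le_rfl
        zero_le_one).1 fun m h1 h2 => by
      have t1 := ref_th hP (m := m + 1) (by omega) h2
      have t2 := ref_th hP h1 h2.le
      refine (hC r s _ _ r1 t1.1 t1.2 t2.1 t2.2).2.trans ?_
      have m1 : (P : ℝ) ≤ m := by exact_mod_cast h1
      have m0 : (0 : ℝ) < m := by linarith only [p1, m1]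
      have l1 : Real.log (m + 1 : ℕ) - Real.log m ≤ 1 / P := by
        rw [← Real.log_div (by positivity) m0.ne']
        refine (Real.log_le_sub_one_of_pos (by positivity)).trans ?_
        push_cast
        rw [add_div, div_self m0.ne', add_sub_cancel_left]
        exact one_div_le_one_div_of_le (by linarith only [p1]) m1
      have l0 := Real.log_le_log m0 (show (m : ℝ) ≤ (m + 1 : ℕ) by push_cast; linarith only [])
      rw [sub_sub_sub_cancel_right, abs_of_nonneg (by linarith only [l0]), mul_div_right_comm,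
        div_eq_mul_one_div (C / r)]
      exact mul_le_mul_of_nonneg_left l1 (by positivity)
    have z : ∀ I, ‖∑ m ∈ I, ei (-s * Real.log (m : ℕ))‖ = ‖ZI I s‖ := fun I => norm_ZI_neg I s
    simp only [z] at a
    have cs := sq_sum_le_card_mul_sum_sq (s := Ico P (2 * P)) (f := fun x => ‖ZI (Ico P (x + 1)) s‖)
    rw [Nat.card_Ico, show 2 * P - P = P by omega] at cs
    rw [sum_congr rfl fun m hm => ref_im N hP (mem_Ico.1 hm).1 (mem_Ico.1 hm).2.le s, ← mul_sum,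
      norm_mul, norm_mul, norm_mul, norm_ei, norm_ei, Complex.norm_natCast, mul_one, mul_one, ← hr]
    generalize ∑ x ∈ Ico P (2 * P), ‖ZI (Ico P (x + 1)) s‖ ^ 2 = v at *
    generalize ∑ x ∈ Ico P (2 * P), ‖ZI (Ico P (x + 1)) s‖ = w at *
    generalize ‖ZI (Ico P (2 * P)) s‖ = y at *
    have b : (w / P) ^ 2 ≤ 1 / P * v := by
      rw [div_pow, div_le_iff₀ (by positivity)]
      refine cs.trans (le_of_eq ?_)
      field_simp
    calc _ ≤ (N * (C / r * y + C / r / P * w)) ^ 2 := by gcongr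
      _ = C ^ 2 * N / P * ((y + w / P) ^ 2 / (2 * π)) := by
        rw [show (N * (C / r * y + C / r / P * w)) ^ 2 = (N * C * (y + w / P)) ^ 2 / r ^ 2 by
          ring, r2]
        field_simp
      _ ≤ _ := by
        refine mul_le_mul_of_nonneg_left ?_ (by positivity)
        rw [div_le_iff₀ (by positivity)]
        nlinarith [sq_nonneg (y - w / P), sq_nonneg y, sq_nonneg (w / P)]
  refine ⟨C ^ 2, by positivity, fun N P s hN hP => ⟨key N P s hN hP, ?_⟩⟩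
  have := key N P (-s) hN hP
  simp only [norm_ZI_neg] at this
  simp only [ref_neg]
  rwa [← map_sum, Complex.norm_conj]

end

section

/-! ### block HS -/

lemma hs_cs {x z : ℂ} {τ : ℝ} {J : ℕ} {a b : ℕ → ℂ} {Q : ℕ → ℝ}
    (h : ‖x - (z + ∑ j ∈ range J, (a j + b j))‖ ≤ τ) (ha : ∀ j, ‖a j‖ ^ 2 ≤ Q j)
    (hb : ∀ j, ‖b j‖ ^ 2 ≤ Q j) : ‖x - z‖ ^ 2 ≤ 2 * τ ^ 2 + 8 * J * ∑ j ∈ range J, Q j := by
  have h1 : ‖x - z‖ ≤ τ + ∑ j ∈ range J, ‖a j + b j‖ := by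
    have : x - z = (x - (z + ∑ j ∈ range J, (a j + b j))) + ∑ j ∈ range J, (a j + b j) := by ring
    rw [this]
    exact (norm_add_le _ _).trans (add_le_add h (norm_sum_le _ _))
  have h2 : (∑ j ∈ range J, ‖a j + b j‖) ^ 2 ≤ J * ∑ j ∈ range J, 4 * Q j := by
    refine sq_sum_le_card_mul_sum_sq.trans ?_
    rw [card_range]
    refine mul_le_mul_of_nonneg_left (sum_le_sum fun j _ => ?_) (Nat.cast_nonneg J)
    have := pow_le_pow_left₀ (norm_nonneg _) (norm_add_le (a j) (b j)) 2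
    linarith only [ha j, hb j, sq_nonneg (‖a j‖ - ‖b j‖), this]
  rw [← mul_sum] at h2
  have h3 := pow_le_pow_left₀ (norm_nonneg _) h1 2
  linarith only [sq_nonneg (τ - ∑ j ∈ range J, ‖a j + b j‖), h2, h3]

lemma hs_sum (W : Finset ℤ) {P : ℕ} (hP : 1 ≤ P) {c D : ℝ} (c0 : 0 ≤ c)
    (hD : ∀ I : Finset ℕ, (∀ m ∈ I, P ≤ m ∧ m ≤ 2 * P) → DS W I ≤ D) :
    ∑ t ∈ W, ∑ t' ∈ W, c * (‖ZI (Ico P (2 * P)) ((t - t' : ℤ) : ℝ)‖ ^ 2 +
      1 / P * ∑ x ∈ Ico P (2 * P), ‖ZI (Ico P (x + 1)) ((t - t' : ℤ) : ℝ)‖ ^ 2) ≤ 2 * c * D := by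
  have P0 : (0 : ℝ) < P := by exact_mod_cast hP
  have e : ∑ t ∈ W, ∑ t' ∈ W, c * (‖ZI (Ico P (2 * P)) ((t - t' : ℤ) : ℝ)‖ ^ 2 +
      1 / P * ∑ x ∈ Ico P (2 * P), ‖ZI (Ico P (x + 1)) ((t - t' : ℤ) : ℝ)‖ ^ 2) =
      c * (DS W (Ico P (2 * P)) + 1 / P * ∑ x ∈ Ico P (2 * P), DS W (Ico P (x + 1))) := by
    simp only [DS, ← mul_sum, sum_add_distrib]
    congr 3
    rw [sum_comm (s := Ico P (2 * P))]
    exact sum_congr rfl fun t _ => sum_comm
  have h1 := hD (Ico P (2 * P)) fun m hm => by rw [mem_Ico] at hm; omega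
  have h2 : ∑ x ∈ Ico P (2 * P), DS W (Ico P (x + 1)) ≤ P * D := by
    refine (sum_le_card_nsmul _ _ D fun x hx => hD _ fun m hm => ?_).trans ?_
    · rw [mem_Ico] at hm hx; omega
    · rw [Nat.card_Ico, nsmul_eq_mul, show 2 * P - P = P by omega]
  have h3 : 1 / (P : ℝ) * ∑ x ∈ Ico P (2 * P), DS W (Ico P (x + 1)) ≤ D := by
    rw [one_div, inv_mul_le_iff₀ P0]; exact h2
  rw [e]
  nlinarith only [c0, h1, h3]

theorem hs {k : ℕ} (hk : 1 ≤ k) (ε : ℝ) (hε : 0 < ε) : ∃ C : ℝ, 0 < C ∧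
    ∀ (Y N T : ℕ) (W : Finset ℤ), 1 ≤ N → N ≤ T → T ≤ Y → (∀ t ∈ W, 0 ≤ t ∧ t ≤ T) → 1 ≤ #W →
      ∑ t ∈ W, ∑ t' ∈ W, ‖Gs N ((t - t' : ℤ) : ℝ) - Im N ((t - t' : ℤ) : ℝ) 0‖ ^ 2 ≤
        C * (Y : ℝ) ^ ε * (N * BD k (T / N) #W T) := by
  obtain ⟨η, η0, η1, ηε⟩ : ∃ η : ℝ, 0 < η ∧ η ≤ 1 ∧ η * (5 : ℕ) ≤ ε := by
    refine ⟨min (ε / 5) 1, lt_min (by positivity) one_pos, min_le_right _ _, ?_⟩
    have := min_le_left (ε / 5) 1
    push_cast; linarith only [this]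
  obtain ⟨A, A2, hA⟩ : ∃ A : ℕ, 2 ≤ A ∧ 2 ≤ η * A := by
    refine ⟨⌈2 / η⌉₊ + 2, by omega, ?_⟩
    have h := Nat.le_ceil (2 / η)
    rw [div_le_iff₀ η0] at h
    push_cast
    linarith only [η0, h]
  obtain ⟨C₁, hC₁, H₁⟩ := poisson A A2
  obtain ⟨C₂, hC₂, H₂⟩ := refl
  obtain ⟨C₃, hC₃, H₃⟩ := ds_le hk η η0
  obtain ⟨C₄, hC₄, H₄⟩ := tp2_log 2 η η0
  refine ⟨32 * C₁ ^ 2 + 512 * C₂ * C₃ * C₄, by positivity, fun Y N T W hN hNT hTY hW hR => ?_⟩
  have N1 : (1 : ℝ) ≤ N := by exact_mod_cast hN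
  have NT : (N : ℝ) ≤ T := by exact_mod_cast hNT
  have TY : (T : ℝ) ≤ Y := by exact_mod_cast hTY
  have Y1 : (1 : ℝ) ≤ Y := by linarith only [N1, NT, TY]
  have N0 : (0 : ℝ) < N := by linarith only [N1]
  have T0 : (0 : ℝ) ≤ T := by linarith only [N1, NT]
  have R0 : (0 : ℝ) ≤ #W := Nat.cast_nonneg _
  have u1 : 1 ≤ (Y : ℝ) ^ η := one_le_rpow Y1 η0.le
  have u2 : (Y : ℝ) ^ η ≤ Y := by simpa using rpow_le_rpow_of_exponent_le Y1 η1
  have u3 : ((Y : ℝ) ^ η) ^ 5 ≤ (Y : ℝ) ^ ε := by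
    rw [← rpow_mul_natCast (by linarith only [N1, NT, TY])]
    exact rpow_le_rpow_of_exponent_le Y1 ηε
  have u4 : (Y : ℝ) ^ 2 ≤ ((Y : ℝ) ^ η) ^ A := by
    rw [← rpow_mul_natCast (by linarith only [N1, NT, TY]), ← rpow_natCast]
    exact rpow_le_rpow_of_exponent_le Y1 (by simpa only [Nat.cast_ofNat] using hA)
  have u5 : ((4 * Y ^ 2 : ℕ) : ℝ) ^ η ≤ 4 * ((Y : ℝ) ^ η) ^ 2 := by
    push_cast
    rw [mul_rpow (by norm_num) (by positivity), ← rpow_natCast_mul (by linarith only [N1, NT, TY]), mul_comm _ η,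
      rpow_mul_natCast (by linarith only [N1, NT, TY])]
    have : (4 : ℝ) ^ η ≤ 4 := by
      simpa using rpow_le_rpow_of_exponent_le (show (1 : ℝ) ≤ 4 by norm_num) η1
    gcongr
  generalize (Y : ℝ) ^ η = u at u1 u2 u3 u4 u5
  have u0 : 0 < u := by linarith only [u1]
  have ex : ∃ J : ℕ, u * (1 + T) ≤ 2 ^ J * N := by
    obtain ⟨J, hJ⟩ := pow_unbounded_of_one_lt (u * (1 + T)) (one_lt_two (α := ℝ))
    exact ⟨J, hJ.le.trans (le_mul_of_one_le_right (by positivity) N1)⟩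
  obtain ⟨J, hJ, hmin⟩ : ∃ J : ℕ, u * (1 + T) ≤ 2 ^ J * N ∧ ∀ i < J, 2 ^ i * (N : ℝ) ≤ 2 * u * T := by
    classical
    refine ⟨Nat.find ex, Nat.find_spec ex, fun i hi => ?_⟩
    have := not_le.1 (Nat.find_min ex hi)
    nlinarith only [N1, NT, u1, this]
  have uT : u * T ≤ Y ^ 2 := by rw [sq]; gcongr
  have hM : 2 ^ J * (N : ℝ) ≤ 4 * Y ^ 2 := by
    rcases J with _ | J
    · rw [pow_zero]; nlinarith only [NT, u1, hJ]
    · have := hmin J (by omega)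
      rw [pow_succ]; linarith only [uT, this]
  have hM' : ∀ i ≤ J, 2 ^ i ≤ 4 * Y ^ 2 := fun i hi => by
    have a1 : (2 : ℝ) ^ i ≤ 2 ^ J := pow_le_pow_right₀ one_le_two hi
    have a2 : (2 : ℝ) ^ J ≤ 2 ^ J * N := le_mul_of_one_le_right (by positivity) N1
    exact_mod_cast (a1.trans a2).trans hM
  have hY : Y ≤ 4 * Y ^ 2 := by nlinarith only []
  have hJ2 : (J : ℝ) ^ 2 ≤ C₄ * (4 * u ^ 2) := by
    have a1 : J ≤ Nat.log 2 (4 * Y ^ 2) := Nat.le_log_of_pow_le one_lt_two (hM' J le_rfl)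
    have a2 : (J : ℝ) ≤ Nat.log 2 (4 * Y ^ 2) + 1 := by exact_mod_cast a1.trans (Nat.le_succ _)
    exact ((pow_le_pow_left₀ (Nat.cast_nonneg J) a2 2).trans (H₄ _ (by omega))).trans
      (mul_le_mul_of_nonneg_left u5 hC₄.le)
  have B0 := BD_nonneg k (show (0 : ℝ) ≤ T / N by positivity) R0 T0
  have B1 := sq_le_BD k (show (0 : ℝ) ≤ T / N by positivity) R0 T0
  have B2 : ∀ i < J, BD k (2 ^ i : ℕ) #W T ≤ 2 * u * BD k (T / N) #W T := fun i hi => by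
    refine BD_le k (by linarith only [u1]) ?_ R0 T0
    rw [← mul_div_assoc, le_div_iff₀ N0]
    exact_mod_cast hmin i hi
  generalize BD k (T / N) #W T = B at B0 B1 B2
  have pt : ∀ t ∈ W, ∀ t' ∈ W, ‖Gs N ((t - t' : ℤ) : ℝ) - Im N ((t - t' : ℤ) : ℝ) 0‖ ^ 2 ≤
      2 * (4 * C₁) ^ 2 + 8 * J * ∑ j ∈ range J, C₂ * N / (2 ^ j : ℕ) *
        (‖ZI (Ico (2 ^ j) (2 * 2 ^ j)) ((t - t' : ℤ) : ℝ)‖ ^ 2 + 1 / (2 ^ j : ℕ) *
          ∑ x ∈ Ico (2 ^ j) (2 * 2 ^ j), ‖ZI (Ico (2 ^ j) (x + 1)) ((t - t' : ℤ) : ℝ)‖ ^ 2) := by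
    intro t ht t' ht'
    have hs : |((t - t' : ℤ) : ℝ)| ≤ T := by
      have := hW t ht
      have := hW t' ht'
      have : |t - t'| ≤ (T : ℤ) := abs_le.2 ⟨by omega, by omega⟩
      exact_mod_cast this
    generalize ((t - t' : ℤ) : ℝ) = s at hs
    have h1 := H₁ N (2 ^ J) s hN Nat.one_le_two_pow
    push_cast at h1
    rw [← add_sum_erase _ _ (show (0 : ℤ) ∈ Ioo (-2 ^ J) (2 ^ J) by simp only [mem_Ioo, Int.neg_neg_iff_pos, Order.lt_two_iff, zero_le_one, pow_pos, and_self]), red_dy] at h1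
    refine hs_cs (h1.trans ?_) (fun j => (H₂ N _ s hN Nat.one_le_two_pow).1)
      fun j => (H₂ N _ s hN Nat.one_le_two_pow).2
    have h4 : (1 + |s|) / (2 ^ J * N) ≤ 1 / u := by
      rw [div_le_div_iff₀ (by positivity) u0]
      nlinarith only [u1, hJ, hs]
    calc _ = C₁ * (2 ^ J * N) * ((1 + |s|) / (2 ^ J * N)) ^ A := by ring
      _ ≤ C₁ * (4 * Y ^ 2) * (1 / u) ^ A := by gcongr
      _ = 4 * C₁ * (Y ^ 2 / u ^ A) := by rw [div_pow]; ring
      _ ≤ 4 * C₁ * 1 := by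
        gcongr
        exact (div_le_one (by positivity)).2 u4
      _ = _ := mul_one _
  refine (sum_le_sum fun t ht => sum_le_sum fun t' ht' => pt t ht t' ht').trans ?_
  simp only [sum_add_distrib, sum_const, nsmul_eq_mul, ← mul_sum]
  rw [sum_congr rfl fun t _ => sum_comm, sum_comm]
  have h5 := sum_le_card_nsmul (range J) _ (16 * C₂ * C₃ * u ^ 3 * (N * B)) fun j hj =>
    (hs_sum W (P := 2 ^ j) (c := C₂ * N / (2 ^ j : ℕ))
      (D := C₃ * (4 * u ^ 2) * ((2 ^ j : ℕ) * (2 * u * B))) Nat.one_le_two_pow (by positivity)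
      fun I hI => (H₃ (4 * Y ^ 2) (2 ^ j) T W I Nat.one_le_two_pow (hM' j (mem_range.1 hj).le)
        (hTY.trans hY) hW hR hI).trans (by
          have := B2 j (mem_range.1 hj)
          have := BD_nonneg k (Nat.cast_nonneg (2 ^ j)) R0 T0
          gcongr)).trans (le_of_eq (by field_simp; ring))
  rw [card_range, nsmul_eq_mul] at h5
  have h6 := mul_le_mul_of_nonneg_left h5 (show (0 : ℝ) ≤ 8 * J by positivity)
  have Z0 : 0 ≤ (N : ℝ) * B := by positivity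
  have h7 : (#W : ℝ) ^ 2 ≤ (Y : ℝ) ^ ε * (N * B) :=
    (B1.trans (le_mul_of_one_le_left B0 N1)).trans
      (le_mul_of_one_le_left Z0 ((one_le_pow₀ u1).trans u3))
  have h8 : (J : ℝ) ^ 2 * (128 * C₂ * C₃ * u ^ 3 * (N * B)) ≤
      C₄ * (4 * u ^ 2) * (128 * C₂ * C₃ * u ^ 3 * (N * B)) :=
    mul_le_mul_of_nonneg_right hJ2 (by positivity)
  have h9 : 512 * C₂ * C₃ * C₄ * (N * B) * u ^ 5 ≤ 512 * C₂ * C₃ * C₄ * (N * B) * (Y : ℝ) ^ ε :=
    mul_le_mul_of_nonneg_left u3 (by positivity)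
  have h10 := mul_le_mul_of_nonneg_left h7 (show 0 ≤ 32 * C₁ ^ 2 by positivity)
  linarith only [h6, h8, h9, h10]

end

section

/-! ### block BLK -/

lemma blk_sq {k : ℕ} (hk : 1 ≤ k) {N R T : ℝ} (N0 : 0 < N) (R0 : 0 ≤ R) (T0 : 0 ≤ T) :
    N * BD k (T / N) R T ≤ FF k N R T ^ 2 := by
  have k0 : (0 : ℝ) < k := by exact_mod_cast hk
  have p : ∀ {a r s : ℝ}, 0 ≤ a → r * 2 = s → (a ^ r) ^ 2 = a ^ s := fun h e => by
    rw [← rpow_mul_natCast h, ← e]; norm_num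
  have e1 := (p (r := 1 / 2) (s := 1) N0.le (by norm_num)).trans (rpow_one N)
  have e2 := (p (r := 1 / 2) (s := 1) T0 (by norm_num)).trans (rpow_one T)
  have e3 := p (r := 1 - 1 / (2 * k)) (s := 2 - 1 / k) R0 (by field_simp)
  have e4 := p (r := 1 / (4 * k)) (s := 1 / (2 * k)) T0 (by field_simp; norm_num)
  have e5 := p (r := 1 - (2 * k + 1) / (4 * k * (k + 1)))
    (s := 2 - (2 * k + 1) / (2 * k * (k + 1))) R0 (by field_simp; ring)
  have e : N * BD k (T / N) R T = (R * N ^ (1 / 2 : ℝ)) ^ 2 +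
      (T ^ (1 / 2 : ℝ) * R ^ (1 - 1 / (2 * k) : ℝ)) ^ 2 + (N ^ (1 / 2 : ℝ) *
        T ^ (1 / (4 * k) : ℝ) * R ^ (1 - (2 * k + 1) / (4 * k * (k + 1)) : ℝ)) ^ 2 := by
    simp only [mul_pow, e1, e2, e3, e4, e5, BD]
    field_simp
  rw [e, FF]
  have a1 : 0 ≤ R * N ^ (1 / 2 : ℝ) := by positivity
  have a2 : 0 ≤ T ^ (1 / 2 : ℝ) * R ^ (1 - 1 / (2 * k) : ℝ) := by positivity
  have a3 : 0 ≤ N ^ (1 / 2 : ℝ) * T ^ (1 / (4 * k) : ℝ) *
    R ^ (1 - (2 * k + 1) / (4 * k * (k + 1)) : ℝ) := by positivity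
  generalize R * N ^ (1 / 2 : ℝ) = x at a1 ⊢
  generalize T ^ (1 / 2 : ℝ) * R ^ (1 - 1 / (2 * k) : ℝ) = y at a2 ⊢
  generalize N ^ (1 / 2 : ℝ) * T ^ (1 / (4 * k) : ℝ) *
    R ^ (1 - (2 * k + 1) / (4 * k * (k + 1)) : ℝ) = z at a3 ⊢
  have : 0 ≤ N * N + 2 * N * (x + y + z) + 2 * (x * y + y * z + x * z) := by positivity
  linarith only [this]

lemma blk_cs (W : Finset ℤ) (D : ℤ → ℂ) (G : ℤ → ℤ → ℂ) {g : ℝ} (hg : 0 ≤ g)
    (h : ∑ t ∈ W, ∑ t' ∈ W, ‖G t t'‖ ^ 2 ≤ g ^ 2) :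
    ‖∑ t ∈ W, ∑ t' ∈ W, conj (D t) * (G t t' * D t')‖ ≤ g * ∑ t ∈ W, ‖D t‖ ^ 2 := by
  have h1 := sum_mul_sq_le_sq_mul_sq (W ×ˢ W) (fun p => ‖G p.1 p.2‖) fun p => ‖D p.1‖ * ‖D p.2‖
  simp only [sum_product, mul_pow] at h1
  rw [← sum_mul_sum] at h1
  have L0 : 0 ≤ ∑ t ∈ W, ‖D t‖ ^ 2 := sum_nonneg fun _ _ => sq_nonneg _
  refine le_trans ?_ (abs_le_of_sq_le_sq' (h1.trans ?_) (mul_nonneg hg L0)).2
  · refine (norm_sum_le _ _).trans (sum_le_sum fun t _ => (norm_sum_le _ _).trans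
      (sum_le_sum fun t' _ => le_of_eq ?_))
    rw [norm_mul, norm_mul, Complex.norm_conj]
    ring
  · rw [mul_pow, ← sq]
    exact mul_le_mul_of_nonneg_right h (sq_nonneg _)

theorem blk {k : ℕ} (hk : 1 ≤ k) (ε : ℝ) (hε : 0 < ε) : ∃ C : ℝ, 0 < C ∧
    ∀ (Y N T : ℕ) (W : Finset ℤ) (a : ℕ → ℂ), 1 ≤ N → N ≤ T → T ≤ Y →
      (∀ t ∈ W, 0 ≤ t ∧ t ≤ T) → (∀ n, ‖a n‖ ≤ 1) →
      ∑ t ∈ W, ‖DP N a t‖ ^ 2 ≤ C * (Y : ℝ) ^ ε * FF k N #W T * N := by
  obtain ⟨C₀, hC₀, H₀⟩ := im_zero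
  obtain ⟨C₁, hC₁, H₁⟩ := hs hk ε hε
  refine ⟨5 * C₀ + √C₁, by positivity, fun Y N T W a hN hT hY hW ha => ?_⟩
  have N0 : (0 : ℝ) < N := by exact_mod_cast hN
  have F0 := le_FF k N0.le (Nat.cast_nonneg (α := ℝ) #W) (Nat.cast_nonneg (α := ℝ) T)
  have F1 := N0.le.trans F0
  have L0 : 0 ≤ ∑ t ∈ W, ‖DP N a t‖ ^ 2 := sum_nonneg fun _ _ => sq_nonneg _
  rcases L0.eq_or_lt with h | h
  · rw [← h]; positivity
  have hR : 1 ≤ #W := card_pos.2 (nonempty_of_sum_ne_zero h.ne')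
  have Y1 : 1 ≤ (Y : ℝ) ^ ε := one_le_rpow (by exact_mod_cast hN.trans (hT.trans hY)) hε.le
  have h1 := H₁ Y N T W hN hT hY hW hR
  have h2 := blk_sq hk N0 (Nat.cast_nonneg (α := ℝ) #W) (Nat.cast_nonneg (α := ℝ) T)
  have hk' := dua_key N hN W a ha (fun s => Im N s 0) (b := C₀ * N) (by positivity)
    fun s => H₀ N s
  generalize (Y : ℝ) ^ ε = u at Y1 h1 ⊢
  generalize FF k N #W T = F at F0 F1 h2 ⊢
  have h3 := blk_cs W (fun t => DP N a t)
    (fun t t' => Gs N ((t - t' : ℤ) : ℝ) - Im N ((t - t' : ℤ) : ℝ) 0) (g := √C₁ * u * F)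
    (by positivity) (h1.trans (by
      rw [mul_pow, mul_pow, sq_sqrt hC₁.le]
      have : u ≤ u ^ 2 := by nlinarith only [Y1]
      gcongr
      exact mul_nonneg N0.le (BD_nonneg k (by positivity) (by positivity) (by positivity))))
  have h4 := hk'.trans (add_le_add le_rfl h3)
  generalize ∑ t ∈ W, ‖DP N a t‖ ^ 2 = L at h h4 ⊢
  rw [div_le_iff₀ N0] at h4
  refine le_of_mul_le_mul_right ?_ h
  have h5 : (N : ℝ) ≤ u * F := F0.trans (le_mul_of_one_le_left F1 Y1)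
  have h6 := mul_le_mul_of_nonneg_left h5 (show 0 ≤ 5 * C₀ * L * N by positivity)
  linarith only [h4, h6]

end

section

/-! ### block TP1 -/

theorem top1 {k : ℕ} (hk : 1 ≤ k) (ε : ℝ) (hε : 0 < ε) : ∃ C : ℝ, 0 < C ∧
    ∀ (N : ℕ) (Y T : ℝ) (S : Finset ℝ) (a : ℕ → ℂ), 1 ≤ N → 0 ≤ T → 1 ≤ Y → T ≤ Y → Sep S →
      (∀ t ∈ S, 0 ≤ t ∧ t ≤ T) → (∀ n, ‖a n‖ ≤ 1) →
      ∑ t ∈ S, ‖DP N a t‖ ^ 2 ≤ C * Y ^ ε * FF k N #S T * N := by
  obtain ⟨C, hC, H⟩ := blk hk ε hε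
  refine ⟨30000 + 8 * C, by positivity, fun N Y T S a hN hT hY hTY hS hr ha => ?_⟩
  have N0 : (0 : ℝ) ≤ N := Nat.cast_nonneg N
  have R0 : (0 : ℝ) ≤ #S := Nat.cast_nonneg _
  have e1 : (1 : ℝ) ≤ Y ^ ε := Real.one_le_rpow hY hε.le
  have F0 := FF_nonneg k N0 R0 hT
  have z0 : 0 ≤ Y ^ ε * FF k N #S T * N := by positivity
  have z1 : 0 ≤ C * Y ^ ε * FF k N #S T * N := by positivity
  have z2 : (30000 + 8 * C) * Y ^ ε * FF k N #S T * N =
      30000 * (Y ^ ε * FF k N #S T * N) + 8 * (C * Y ^ ε * FF k N #S T * N) := by ring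
  rw [z2]
  rcases lt_or_ge T N with hTN | hTN
  · have h1 : ∑ t ∈ S, ‖DP N a t‖ ^ 2 ≤ 30000 * N * N := H14.mvt N hN N le_rfl S hS
      (fun t ht => ⟨(hr t ht).1, (hr t ht).2.trans hTN.le⟩) a ha
    have h2 : (N : ℝ) * N ≤ Y ^ ε * FF k N #S T * N :=
      mul_le_mul_of_nonneg_right ((le_FF k N0 R0 hT).trans (le_mul_of_one_le_left F0 e1)) N0
    linarith only [z1, h1, h2]
  obtain ⟨b, hb, hav⟩ := tp1_avg N hN a ha
  have inj : Set.InjOn (fun t : ℝ => ⌊t⌋) S := by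
    intro t ht u hu e
    by_contra hne
    have h2 := hS t ht u hu hne
    have h3 := Int.abs_sub_lt_one_of_floor_eq_floor e
    linarith only [h2, h3]
  have hc : ∀ w : ℝ, Continuous fun x : ℝ => ‖DP N b (w + x)‖ ^ 2 := by
    intro w
    refine (Continuous.norm ?_).pow 2
    exact continuous_finsetSum _ fun n _ => continuous_const.mul
      (continuous_ei.comp ((continuous_const.add continuous_id).mul continuous_const))
  have key : ∀ x : ℝ, ∑ t ∈ S, ‖DP N b ((⌊t⌋ : ℝ) + x)‖ ^ 2 ≤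
      C * Y ^ ε * FF k N #S T * N := by
    intro x
    have h2 := H ⌊Y⌋₊ N ⌊T⌋₊ (S.image fun t : ℝ => ⌊t⌋) (fun n => b n * ei (x * Real.log n)) hN
      (Nat.le_floor hTN) (Nat.floor_le_floor hTY) (by
        intro w hw
        obtain ⟨t, ht, rfl⟩ := mem_image.1 hw
        rw [Int.natCast_floor_eq_floor hT]
        exact ⟨Int.floor_nonneg.2 (hr t ht).1, Int.floor_le_floor (hr t ht).2⟩)
      (fun n => by rw [norm_mul, norm_ei, mul_one]; exact hb n)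
    rw [sum_image inj, card_image_of_injOn inj] at h2
    refine le_trans (le_of_eq (sum_congr rfl fun t _ => ?_)) (h2.trans ?_)
    · congr 2
      refine sum_congr rfl fun n _ => ?_
      rw [mul_assoc, ← ei_add]
      congr 2
      ring
    · have h4 : (⌊Y⌋₊ : ℝ) ≤ Y := Nat.floor_le (by linarith only [hY])
      have h3 := FF_mono k N0 le_rfl R0 (Nat.cast_nonneg ⌊T⌋₊) (Nat.floor_le hT)
      have h5 := FF_nonneg k N0 R0 (Nat.cast_nonneg ⌊T⌋₊)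
      gcongr
  refine (sum_le_sum fun t _ => hav t).trans ?_
  rw [← mul_sum, ← intervalIntegral.integral_finsetSum
    fun t _ => (hc _).intervalIntegrable _ _]
  have h2 := intervalIntegral.integral_mono_on (μ := MeasureTheory.volume) (a := 0) (b := 2)
    (by norm_num) ((continuous_finsetSum S fun t _ => hc (⌊t⌋ : ℝ)).intervalIntegrable _ _)
    (continuous_const.intervalIntegrable _ _) fun x _ => key x
  rw [intervalIntegral.integral_const, smul_eq_mul, sub_zero] at h2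
  linarith only [z0, h2]

/-! ### block TP2 -/

theorem top2 {k : ℕ} (hk : 1 ≤ k) (ε : ℝ) (hε : 0 < ε) : ∃ C : ℝ, 0 < C ∧
    ∀ (N : ℕ) (T : ℝ) (S : Finset ℝ) (a : ℕ → ℂ), 1 ≤ N → 0 ≤ T → Sep S →
      (∀ t ∈ S, 0 ≤ t ∧ t ≤ T) → (∀ n, ‖a n‖ ≤ 1) →
      ∑ t ∈ S, ‖∑ n ∈ Icc 1 N, a n * ei (t * Real.log n)‖ ^ 2 ≤
        C * (N + T) ^ ε * FF k N #S T * N := by
  classical
  obtain ⟨C0, hC0, hd⟩ := top1 hk (ε / 2) (by positivity)
  obtain ⟨C1, hC1, hlog⟩ := tp2_log 2 (ε / 2) (by positivity)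
  refine ⟨2 + 2 * C0 * C1, by positivity, fun N T S a hN hT hS hr ha => ?_⟩
  have N1 : (1 : ℝ) ≤ N := by exact_mod_cast hN
  have N0 : (0 : ℝ) ≤ N := Nat.cast_nonneg N
  have R0 : (0 : ℝ) ≤ #S := Nat.cast_nonneg _
  have F0 := FF_nonneg k N0 R0 hT
  have Y1 : (1 : ℝ) ≤ N + T := by linarith only [hT, N1]
  have e1 : (1 : ℝ) ≤ (N + T) ^ ε := Real.one_le_rpow Y1 hε.le
  have e2 : ((N : ℝ) + T) ^ ε = (N + T) ^ (ε / 2) * (N + T) ^ (ε / 2) := by
    rw [← Real.rpow_add (by linarith only [hT, N1]), add_halves]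
  obtain ⟨b, hb⟩ : ∃ b : ℕ → ℂ, b = fun m => if m ≤ N then a m else 0 := ⟨_, rfl⟩
  have hb1 : ∀ m, ‖b m‖ ≤ 1 := by
    intro m
    rw [hb]
    dsimp only
    split_ifs
    · exact ha m
    · simp
  have hK : N ≤ 2 ^ (Nat.log 2 N + 1) := (Nat.lt_pow_succ_log_self (by norm_num) N).le
  have hsplit : ∀ t : ℝ, ∑ m ∈ Icc 1 N, a m * ei (t * Real.log m) =
      b 1 * ei (t * Real.log (1 : ℕ)) + ∑ i ∈ range (Nat.log 2 N + 1), DP (2 ^ i) b t := by
    intro t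
    unfold DP
    rw [← tp2_split (fun m => b m * ei (t * Real.log m))]
    rw [← sum_subset (Icc_subset_Icc_right hK)]
    · refine sum_congr rfl fun m hm => ?_
      rw [hb]
      dsimp only
      rw [if_pos (mem_Icc.1 hm).2]
    · intro m hm hm'
      rw [hb]
      dsimp only
      rw [if_neg, zero_mul]
      intro h
      exact hm' (mem_Icc.2 ⟨(mem_Icc.1 hm).1, h⟩)
  obtain ⟨K, hKK⟩ : ∃ K : ℝ, K = (Nat.log 2 N : ℝ) + 1 := ⟨_, rfl⟩
  have K0 : 0 ≤ K := by rw [hKK]; positivity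
  have hblock : ∀ i ∈ range (Nat.log 2 N + 1), ∑ t ∈ S, ‖DP (2 ^ i) b t‖ ^ 2 ≤
      C0 * (N + T) ^ (ε / 2) * FF k N #S T * N := by
    intro i hi
    have hM : 2 ^ i ≤ N :=
      (Nat.pow_le_pow_right (by norm_num) (Nat.lt_succ_iff.1 (mem_range.1 hi))).trans
        (Nat.pow_log_le_self 2 (by omega))
    have hM1 : 1 ≤ 2 ^ i := Nat.one_le_two_pow
    generalize 2 ^ i = M at hM hM1
    have hM' : (M : ℝ) ≤ N := by exact_mod_cast hM
    refine (hd M (N + T) T S b hM1 hT Y1 (by linarith only [N1]) hS hr hb1).trans ?_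
    have g1 := FF_mono k (Nat.cast_nonneg M) hM' R0 hT le_rfl
    gcongr
  have hpt : ∀ t ∈ S, ‖∑ m ∈ Icc 1 N, a m * ei (t * Real.log m)‖ ^ 2 ≤
      2 + 2 * K * ∑ i ∈ range (Nat.log 2 N + 1), ‖DP (2 ^ i) b t‖ ^ 2 := by
    intro t _
    rw [hsplit t]
    have g1 := (norm_add_le (b 1 * ei (t * Real.log (1 : ℕ))) _).trans
      (add_le_add_right (norm_sum_le (range (Nat.log 2 N + 1)) fun i => DP (2 ^ i) b t) _)
    rw [norm_mul, norm_ei, mul_one] at g1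
    have g2 := sq_sum_le_card_mul_sum_sq (s := range (Nat.log 2 N + 1))
      (f := fun i => ‖DP (2 ^ i) b t‖)
    rw [card_range] at g2
    push_cast at g2
    rw [← hKK] at g2
    have g3 := pow_le_pow_left₀ (norm_nonneg _) (g1.trans (add_le_add_left (hb1 1) _)) 2
    linarith only [sq_nonneg (1 - ∑ i ∈ range (Nat.log 2 N + 1), ‖DP (2 ^ i) b t‖), g2, g3]
  have h1 := sum_le_sum hpt
  rw [sum_add_distrib, sum_const, nsmul_eq_mul, ← mul_sum, sum_comm (s := S)] at h1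
  have h2 := sum_le_sum hblock
  rw [sum_const, card_range, nsmul_eq_mul] at h2
  push_cast at h2
  rw [← hKK] at h2
  have h3 : K ^ 2 ≤ C1 * (N + T) ^ (ε / 2) := by
    rw [hKK]
    refine (hlog N hN).trans ?_
    gcongr
    linarith only [hT]
  have h4 : (#S : ℝ) ≤ FF k N #S T := by
    have g1 : (#S : ℝ) ≤ #S * (N : ℝ) ^ (1 / 2 : ℝ) :=
      le_mul_of_one_le_right R0 (Real.one_le_rpow N1 (by norm_num))
    refine g1.trans ?_
    unfold FF
    rw [add_assoc, add_comm (N : ℝ), add_assoc]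
    exact le_add_of_nonneg_right (by positivity)
  have h5 : FF k N #S T ≤ (N + T) ^ ε * FF k N #S T * N :=
    (le_mul_of_one_le_left F0 e1).trans (le_mul_of_one_le_right (by positivity) N1)
  have h6 := mul_le_mul_of_nonneg_left h2 K0
  have h7 := mul_le_mul_of_nonneg_right h3
    (show 0 ≤ C0 * (N + T) ^ (ε / 2) * FF k N #S T * N by positivity)
  have h8 : (2 + 2 * C0 * C1) * (N + T) ^ ε * FF k N #S T * N =
      2 * ((N + T) ^ ε * FF k N #S T * N) +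
        2 * (C1 * (N + T) ^ (ε / 2) * (C0 * (N + T) ^ (ε / 2) * FF k N #S T * N)) := by
    rw [e2]
    ring
  rw [h8]
  linarith only [h1, h4, h5, h6, h7]

end

end Pool.Agent.MP_71ac24_nt.H17R
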